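import Mathlib

/-!
# Fourier analysis on the cube and the level inequality

Everything is elementary: Bonami's inequality for even exponents by induction on the coordinates, and its consequence for
the Fourier weight of a `[0, 1]`-valued function on the sets of size `l`.
-/

namespace Pool.Agent.H.MP_dd1c2e_lc.Fo

open Finset

variable {I : Type} [Fintype I] [DecidableEq I]

/-- The sign of a bit. -/
def sg (b : Bool) : ℝ := if b then -1 else 1

omit [Fintype I] [DecidableEq I] in
theorem sg_sq (b : Bool) : sg b * sg b = 1 := by cases b <;> simp [sg]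

theorem sg_xor (a b : Bool) : sg (Bool.xor a b) = sg a * sg b := by cases a <;> cases b <;> simp [sg]

theorem sg_not (b : Bool) : sg (!b) = - sg b := by cases b <;> simp [sg]

theorem abs_sg (b : Bool) : |sg b| = 1 := by cases b <;> simp [sg]

/-- The characters of the cube. -/
def chi (S : Finset I) (x : I → Bool) : ℝ := ∏ i ∈ S, sg (x i)

/-- The average over the cube. -/
noncomputable def avg (f : (I → Bool) → ℝ) : ℝ := (∑ x, f x) / 2 ^ Fintype.card I

/-- The Fourier coefficients. -/
noncomputable def ft (f : (I → Bool) → ℝ) (S : Finset I) : ℝ := avg (fun x => f x * chi S x)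

theorem card_cube : (Fintype.card (I → Bool) : ℝ) = 2 ^ Fintype.card I := by
  rw [Fintype.card_fun]; simp

theorem avg_const (c : ℝ) : avg (fun _ : I → Bool => c) = c := by
  unfold avg
  rw [Finset.sum_const, nsmul_eq_mul, Finset.card_univ, card_cube]
  field_simp

theorem avg_add (f g : (I → Bool) → ℝ) : avg (fun x => f x + g x) = avg f + avg g := by
  unfold avg; rw [Finset.sum_add_distrib, add_div]

theorem avg_mul_left (c : ℝ) (f : (I → Bool) → ℝ) : avg (fun x => c * f x) = c * avg f := by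
  unfold avg; rw [← Finset.mul_sum, mul_div_assoc]

theorem avg_sum {J : Type} (s : Finset J) (f : J → (I → Bool) → ℝ) :
    avg (fun x => ∑ j ∈ s, f j x) = ∑ j ∈ s, avg (f j) := by
  unfold avg; rw [Finset.sum_comm, Finset.sum_div]

theorem avg_mono {f g : (I → Bool) → ℝ} (h : ∀ x, f x ≤ g x) : avg f ≤ avg g := by
  unfold avg
  exact div_le_div_of_nonneg_right (Finset.sum_le_sum fun x _ => h x) (by positivity)

theorem avg_nonneg {f : (I → Bool) → ℝ} (h : ∀ x, 0 ≤ f x) : 0 ≤ avg f := by
  unfold avg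
  exact div_nonneg (Finset.sum_nonneg fun x _ => h x) (by positivity)

theorem abs_avg_le (f : (I → Bool) → ℝ) : |avg f| ≤ avg (fun x => |f x|) := by
  unfold avg
  rw [abs_div, abs_of_pos (show (0:ℝ) < 2 ^ Fintype.card I by positivity)]
  exact div_le_div_of_nonneg_right (Finset.abs_sum_le_sum_abs _ _) (by positivity)

/-- Flip one coordinate. -/
def flip (i : I) (x : I → Bool) : I → Bool := Function.update x i (!(x i))

theorem flip_flip (i : I) (x : I → Bool) : flip i (flip i x) = x := by
  funext j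
  unfold flip
  by_cases h : j = i
  · subst h; simp
  · simp [Function.update_of_ne h]

theorem flip_same (i : I) (x : I → Bool) : flip i x i = !(x i) := by simp [flip]

theorem flip_ne {i j : I} (h : j ≠ i) (x : I → Bool) : flip i x j = x j := by simp [flip, Function.update_of_ne h]

theorem avg_flip (i : I) (f : (I → Bool) → ℝ) : avg (fun x => f (flip i x)) = avg f := by
  unfold avg
  congr 1
  exact Fintype.sum_equiv ⟨flip i, flip i, flip_flip i, flip_flip i⟩ _ _ (fun x => rfl)

theorem chi_flip_notMem {S : Finset I} {i : I} (h : i ∉ S) (x : I → Bool) : chi S (flip i x) = chi S x := by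
  unfold chi
  refine Finset.prod_congr rfl fun j hj => ?_
  rw [flip_ne]
  rintro rfl; exact h hj

theorem chi_insert {S : Finset I} {i : I} (h : i ∉ S) (x : I → Bool) : chi (insert i S) x = sg (x i) * chi S x := by
  unfold chi; rw [Finset.prod_insert h]

theorem chi_flip_mem {S : Finset I} {i : I} (h : i ∈ S) (x : I → Bool) : chi S (flip i x) = - chi S x := by
  obtain ⟨T, hT, rfl⟩ : ∃ T, i ∉ T ∧ S = insert i T := ⟨S.erase i, Finset.notMem_erase _ _, (Finset.insert_erase h).symm⟩
  rw [chi_insert hT, chi_insert hT, chi_flip_notMem hT, flip_same, sg_not]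
  ring

theorem abs_chi (S : Finset I) (x : I → Bool) : |chi S x| = 1 := by
  unfold chi
  rw [Finset.abs_prod]
  exact Finset.prod_eq_one fun i _ => abs_sg _

theorem chi_mul_self (S : Finset I) (x : I → Bool) : chi S x * chi S x = 1 := by
  unfold chi
  rw [← Finset.prod_mul_distrib]
  exact Finset.prod_eq_one fun i _ => sg_sq _

theorem chi_empty (x : I → Bool) : chi (∅ : Finset I) x = 1 := by simp [chi]

theorem chi_xor (S : Finset I) (x y : I → Bool) : chi S (fun i => Bool.xor (x i) (y i)) = chi S x * chi S y := by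
  unfold chi
  rw [← Finset.prod_mul_distrib]
  exact Finset.prod_congr rfl fun i _ => sg_xor _ _

/-- `∑ S, χ_S(x) χ_S(y) = 2^n` if `x = y` and `0` otherwise. -/
theorem sum_chi (x y : I → Bool) : ∑ S : Finset I, chi S x * chi S y = if x = y then 2 ^ Fintype.card I else 0 := by
  have h : ∑ S : Finset I, chi S x * chi S y = ∏ i : I, (1 + sg (x i) * sg (y i)) := by
    rw [Finset.prod_one_add, ← Finset.powerset_univ]
    refine Finset.sum_congr rfl fun S _ => ?_
    unfold chi
    rw [← Finset.prod_mul_distrib]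
  rw [h]
  split_ifs with hxy
  · subst hxy
    rw [Finset.prod_congr rfl (fun i _ => by rw [sg_sq])]
    rw [Finset.prod_const, Finset.card_univ]
    norm_num
  · obtain ⟨i, hi⟩ : ∃ i, x i ≠ y i := Function.ne_iff.1 hxy
    refine Finset.prod_eq_zero (Finset.mem_univ i) ?_
    cases hx : x i <;> cases hy : y i <;> simp_all [sg]

/-- Fourier inversion. -/
theorem inversion (f : (I → Bool) → ℝ) (x : I → Bool) : f x = ∑ S : Finset I, ft f S * chi S x := by
  have h : ∀ S : Finset I, ft f S * chi S x = (∑ y, f y * (chi S y * chi S x)) / 2 ^ Fintype.card I := by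
    intro S
    unfold ft avg
    rw [div_mul_eq_mul_div, Finset.sum_mul]
    congr 1
    exact Finset.sum_congr rfl fun y _ => by ring
  rw [Finset.sum_congr rfl (fun S _ => h S), ← Finset.sum_div, Finset.sum_comm]
  rw [Finset.sum_congr rfl (fun y _ => by rw [← Finset.mul_sum, sum_chi])]
  simp

/-- Plancherel. -/
theorem plancherel (f g : (I → Bool) → ℝ) : avg (fun x => f x * g x) = ∑ S : Finset I, ft f S * ft g S := by
  have h : ∀ x, f x * g x = ∑ S : Finset I, ft f S * (g x * chi S x) := by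
    intro x
    conv_lhs => rw [inversion f x]
    rw [Finset.sum_mul]
    exact Finset.sum_congr rfl fun S _ => by ring
  rw [show (fun x => f x * g x) = fun x => ∑ S : Finset I, ft f S * (g x * chi S x) from funext h]
  rw [avg_sum]
  exact Finset.sum_congr rfl fun S _ => by rw [avg_mul_left]; rfl

/-- The convolution `H(z) = E_x A(x) B(x ⊕ z)` has the coefficients `A^(S) B^(S)`. -/
theorem ft_conv (A B : (I → Bool) → ℝ) (S : Finset I) :
    ft (fun z => avg (fun x => A x * B (fun i => Bool.xor (x i) (z i)))) S = ft A S * ft B S := by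
  unfold ft avg
  have h : ∀ x : I → Bool, ∑ z : I → Bool, B (fun i => Bool.xor (x i) (z i)) * chi S z
      = (∑ y, B y * chi S y) * chi S x := by
    intro x
    rw [Finset.sum_mul]
    refine Fintype.sum_equiv ⟨fun z i => Bool.xor (x i) (z i), fun y i => Bool.xor (x i) (y i), ?_, ?_⟩ _ _ ?_
    · intro z; funext i; simp
    · intro z; funext i; simp
    · intro z
      simp only [Equiv.coe_fn_mk]
      rw [chi_xor]
      have := chi_mul_self S x
      linear_combination (- B (fun i => Bool.xor (x i) (z i)) * chi S z) * this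
  have h2 : ∑ z : I → Bool, (∑ x : I → Bool, A x * B (fun i => Bool.xor (x i) (z i))) / 2 ^ Fintype.card I * chi S z
      = (∑ x : I → Bool, A x * chi S x) * (∑ y, B y * chi S y) / 2 ^ Fintype.card I := by
    rw [Finset.sum_congr rfl (fun z _ => div_mul_eq_mul_div _ _ _), ← Finset.sum_div]
    congr 1
    rw [Finset.sum_congr rfl (fun z _ => Finset.sum_mul _ _ _), Finset.sum_comm, Finset.sum_mul]
    refine Finset.sum_congr rfl fun x _ => ?_
    rw [Finset.sum_congr rfl (fun z _ => mul_assoc _ _ _), ← Finset.mul_sum, h x]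
    ring
  rw [h2]
  field_simp

/-! ### Bonami's inequality -/

theorem choose_bound (r : ℕ) (hr : 1 ≤ r) : ∀ k ≤ r, (2 * r).choose (2 * k) ≤ (2 * r - 1) ^ k * r.choose k := by
  intro k
  induction k with
  | zero => intro _; simp
  | succ k ih =>
    intro hk
    have ih := ih (by omega)
    have e1 : (2 * r).choose (2 * k + 1) * (2 * k + 1) = (2 * r).choose (2 * k) * (2 * r - 2 * k) :=
      Nat.choose_succ_right_eq _ _
    have e2 : (2 * r).choose (2 * k + 2) * (2 * k + 2) = (2 * r).choose (2 * k + 1) * (2 * r - (2 * k + 1)) :=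
      Nat.choose_succ_right_eq _ _
    have e3 : r.choose (k + 1) * (k + 1) = r.choose k * (r - k) := Nat.choose_succ_right_eq _ _
    have hmain : (2 * r).choose (2 * k + 2) * ((2 * k + 2) * (2 * k + 1))
        ≤ (2 * r - 1) ^ (k + 1) * r.choose (k + 1) * ((2 * k + 2) * (2 * k + 1)) := by
      calc (2 * r).choose (2 * k + 2) * ((2 * k + 2) * (2 * k + 1))
          = ((2 * r).choose (2 * k + 2) * (2 * k + 2)) * (2 * k + 1) := by ring
        _ = ((2 * r).choose (2 * k + 1) * (2 * k + 1)) * (2 * r - (2 * k + 1)) := by rw [e2]; ring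
        _ = (2 * r).choose (2 * k) * ((2 * r - 2 * k) * (2 * r - (2 * k + 1))) := by rw [e1]; ring
        _ ≤ ((2 * r - 1) ^ k * r.choose k) * ((2 * r - 2 * k) * (2 * r - (2 * k + 1))) :=
            Nat.mul_le_mul_right _ ih
        _ = (2 * r - 1) ^ k * (r.choose k * (r - k)) * 2 * (2 * r - (2 * k + 1)) := by
            have : 2 * r - 2 * k = 2 * (r - k) := by omega
            rw [this]; ring
        _ = (2 * r - 1) ^ k * (r.choose (k + 1) * (k + 1)) * 2 * (2 * r - (2 * k + 1)) := by rw [e3]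
        _ ≤ (2 * r - 1) ^ k * (r.choose (k + 1) * (k + 1)) * 2 * ((2 * r - 1) * (2 * k + 1)) := by
            refine Nat.mul_le_mul_left _ ?_
            calc 2 * r - (2 * k + 1) ≤ 2 * r - 1 := by omega
              _ = (2 * r - 1) * 1 := by ring
              _ ≤ (2 * r - 1) * (2 * k + 1) := Nat.mul_le_mul_left _ (by omega)
        _ = (2 * r - 1) ^ (k + 1) * r.choose (k + 1) * ((2 * k + 2) * (2 * k + 1)) := by ring
    exact Nat.le_of_mul_le_mul_right hmain (by positivity)

theorem sum_even_odd (g : ℕ → ℝ) (r : ℕ) :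
    ∑ m ∈ range (2 * r + 1), g m = ∑ k ∈ range (r + 1), g (2 * k) + ∑ k ∈ range r, g (2 * k + 1) := by
  induction r with
  | zero => simp
  | succ r ih =>
    rw [show 2 * (r + 1) + 1 = 2 * r + 1 + 1 + 1 by ring, Finset.sum_range_succ, Finset.sum_range_succ, ih,
      Finset.sum_range_succ (fun k => g (2 * k)) (r + 1), Finset.sum_range_succ (fun k => g (2 * k + 1)) r]
    rw [show 2 * (r + 1) = 2 * r + 1 + 1 by ring]
    ring

theorem even_part (u w : ℝ) (r : ℕ) :
    ((u + w) ^ (2 * r) + (u - w) ^ (2 * r)) / 2 =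
      ∑ k ∈ range (r + 1), ((2 * r).choose (2 * k) : ℝ) * (u ^ 2) ^ (r - k) * (w ^ 2) ^ k := by
  have e1 : (u + w) ^ (2 * r) = ∑ m ∈ range (2 * r + 1), w ^ m * u ^ (2 * r - m) * ((2 * r).choose m : ℝ) := by
    rw [add_comm u w, add_pow]
  have e2 : (u - w) ^ (2 * r) = ∑ m ∈ range (2 * r + 1), (-w) ^ m * u ^ (2 * r - m) * ((2 * r).choose m : ℝ) := by
    rw [sub_eq_add_neg, add_comm u (-w), add_pow]
  rw [e1, e2, ← Finset.sum_add_distrib, sum_even_odd, add_div, Finset.sum_div, Finset.sum_div]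
  have h1 : ∑ k ∈ range r, (w ^ (2 * k + 1) * u ^ (2 * r - (2 * k + 1)) * ((2 * r).choose (2 * k + 1) : ℝ) +
      (-w) ^ (2 * k + 1) * u ^ (2 * r - (2 * k + 1)) * ((2 * r).choose (2 * k + 1) : ℝ)) / 2 = 0 := by
    refine Finset.sum_eq_zero fun k _ => ?_
    rw [Odd.neg_pow ⟨k, rfl⟩]; ring
  rw [h1, add_zero]
  refine Finset.sum_congr rfl fun k hk => ?_
  have hk : k ≤ r := by have := Finset.mem_range.1 hk; omega
  rw [Even.neg_pow ⟨k, by ring⟩, ← pow_mul, ← pow_mul, show 2 * r - 2 * k = 2 * (r - k) by omega]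
  ring

/-- The pointwise inequality. -/
theorem two_point (u v ρ : ℝ) (r : ℕ) (hr : 1 ≤ r) (hρ : ρ ^ 2 * (2 * r - 1) ≤ 1) :
    ((u + ρ * v) ^ (2 * r) + (u - ρ * v) ^ (2 * r)) / 2 ≤ (u ^ 2 + v ^ 2) ^ r := by
  rw [even_part, add_comm (u ^ 2), add_pow]
  refine Finset.sum_le_sum fun k hk => ?_
  have hk : k ≤ r := by have := Finset.mem_range.1 hk; omega
  have h1 : ((2 * r).choose (2 * k) : ℝ) ≤ (2 * r - 1) ^ k * (r.choose k : ℝ) := by
    have := choose_bound r hr k hk
    have h2 : (((2 * r).choose (2 * k) : ℕ) : ℝ) ≤ (((2 * r - 1) ^ k * r.choose k : ℕ) : ℝ) := by exact_mod_cast this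
    rw [Nat.cast_mul, Nat.cast_pow, Nat.cast_sub (by omega)] at h2
    simpa using h2
  have h3 : (0:ℝ) ≤ 2 * r - 1 := by
    have : (1:ℝ) ≤ r := by exact_mod_cast hr
    linarith
  calc ((2 * r).choose (2 * k) : ℝ) * (u ^ 2) ^ (r - k) * ((ρ * v) ^ 2) ^ k
      ≤ ((2 * r - 1) ^ k * (r.choose k : ℝ)) * (u ^ 2) ^ (r - k) * ((ρ * v) ^ 2) ^ k := by gcongr
    _ = (ρ ^ 2 * (2 * r - 1)) ^ k * ((v ^ 2) ^ k * (u ^ 2) ^ (r - k) * (r.choose k : ℝ)) := by
        rw [mul_pow, mul_pow, mul_pow]; ring
    _ ≤ 1 * ((v ^ 2) ^ k * (u ^ 2) ^ (r - k) * (r.choose k : ℝ)) := by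
        gcongr
        exact pow_le_one₀ (by positivity) hρ
    _ = (v ^ 2) ^ k * (u ^ 2) ^ (r - k) * (r.choose k : ℝ) := one_mul _

/-- Convexity: if `E u^(2r) ≤ A^r` and `E v^(2r) ≤ B^r` then `E (u² + v²)^r ≤ (A + B)^r`, for `A, B > 0`. -/
theorem minkowski (u v : (I → Bool) → ℝ) (A B : ℝ) (hA : 0 < A) (hB : 0 < B) (r : ℕ) (hr : 1 ≤ r)
    (hu : avg (fun x => u x ^ (2 * r)) ≤ A ^ r) (hv : avg (fun x => v x ^ (2 * r)) ≤ B ^ r) :
    avg (fun x => (u x ^ 2 + v x ^ 2) ^ r) ≤ (A + B) ^ r := by
  have key : ∀ x, (u x ^ 2 + v x ^ 2) ^ r ≤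
      (A + B) ^ r * ((A / (A + B)) * (u x ^ (2 * r) / A ^ r) + (B / (A + B)) * (v x ^ (2 * r) / B ^ r)) := by
    intro x
    have hx1 : u x ^ 2 / A ∈ Set.Ici (0:ℝ) := Set.mem_Ici.2 (by positivity)
    have hy1 : v x ^ 2 / B ∈ Set.Ici (0:ℝ) := Set.mem_Ici.2 (by positivity)
    have ha1 : (0:ℝ) ≤ A / (A + B) := by positivity
    have hb1 : (0:ℝ) ≤ B / (A + B) := by positivity
    have hab1 : A / (A + B) + B / (A + B) = 1 := by field_simp
    have hc := (convexOn_pow (𝕜 := ℝ) r).2 hx1 hy1 ha1 hb1 hab1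
    simp only [smul_eq_mul] at hc
    have e : A / (A + B) * (u x ^ 2 / A) + B / (A + B) * (v x ^ 2 / B) = (u x ^ 2 + v x ^ 2) / (A + B) := by
      field_simp
    rw [e, div_pow, div_pow, div_pow, ← pow_mul, ← pow_mul] at hc
    have hp : (0:ℝ) < (A + B) ^ r := by positivity
    rw [div_le_iff₀ hp] at hc
    linarith [hc]
  calc avg (fun x => (u x ^ 2 + v x ^ 2) ^ r)
      ≤ avg (fun x => (A + B) ^ r * ((A / (A + B)) * (u x ^ (2 * r) / A ^ r) +
          (B / (A + B)) * (v x ^ (2 * r) / B ^ r))) := avg_mono key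
    _ = (A + B) ^ r * ((A / (A + B)) * (avg (fun x => u x ^ (2 * r)) / A ^ r) +
          (B / (A + B)) * (avg (fun x => v x ^ (2 * r)) / B ^ r)) := by
        rw [avg_mul_left, avg_add, avg_mul_left, avg_mul_left]
        congr 3
        · rw [show (fun x => u x ^ (2 * r) / A ^ r) = fun x => (1 / A ^ r) * u x ^ (2 * r) from
            funext fun x => by ring, avg_mul_left]; ring
        · rw [show (fun x => v x ^ (2 * r) / B ^ r) = fun x => (1 / B ^ r) * v x ^ (2 * r) from
            funext fun x => by ring, avg_mul_left]; ring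
    _ ≤ (A + B) ^ r * ((A / (A + B)) * 1 + (B / (A + B)) * 1) := by
        have h1 : avg (fun x => u x ^ (2 * r)) / A ^ r ≤ 1 := (div_le_one (by positivity)).2 hu
        have h2 : avg (fun x => v x ^ (2 * r)) / B ^ r ≤ 1 := (div_le_one (by positivity)).2 hv
        gcongr
    _ = (A + B) ^ r := by field_simp

/-- Bonami's inequality for the exponent `2r`. -/
theorem bonami (r : ℕ) (hr : 1 ≤ r) (ρ : ℝ) (hρ : ρ ^ 2 * (2 * r - 1) ≤ 1) (J : Finset I) :
    ∀ f : Finset I → ℝ,
      avg (fun x => (∑ S ∈ J.powerset, ρ ^ S.card * f S * chi S x) ^ (2 * r)) ≤ (∑ S ∈ J.powerset, f S ^ 2) ^ r := by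
  induction J using Finset.induction_on with
  | empty =>
    intro f
    simp only [Finset.powerset_empty, Finset.sum_singleton, Finset.card_empty, pow_zero, one_mul, chi_empty, mul_one]
    rw [avg_const, pow_mul]
  | insert i J hi ih =>
    intro f
    set u : (I → Bool) → ℝ := fun x => ∑ S ∈ J.powerset, ρ ^ S.card * f S * chi S x with hu
    set v : (I → Bool) → ℝ := fun x => ∑ S ∈ J.powerset, ρ ^ S.card * f (insert i S) * chi S x with hv
    have hnot : ∀ S ∈ J.powerset, i ∉ S := fun S hS h => hi (Finset.mem_powerset.1 hS h)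
    have hsplit : ∀ x, ∑ S ∈ (insert i J).powerset, ρ ^ S.card * f S * chi S x = u x + ρ * (sg (x i) * v x) := by
      intro x
      rw [Finset.sum_powerset_insert hi, hu, hv]
      simp only
      rw [Finset.mul_sum, Finset.mul_sum]
      congr 1
      refine Finset.sum_congr rfl fun S hS => ?_
      rw [Finset.card_insert_of_notMem (hnot S hS), chi_insert (hnot S hS)]
      ring
    have hufl : ∀ x, u (flip i x) = u x := fun x =>
      Finset.sum_congr rfl fun S hS => by rw [chi_flip_notMem (hnot S hS)]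
    have hvfl : ∀ x, v (flip i x) = v x := fun x =>
      Finset.sum_congr rfl fun S hS => by rw [chi_flip_notMem (hnot S hS)]
    have hstep : avg (fun x => (∑ S ∈ (insert i J).powerset, ρ ^ S.card * f S * chi S x) ^ (2 * r)) =
        avg (fun x => ((u x + ρ * v x) ^ (2 * r) + (u x - ρ * v x) ^ (2 * r)) / 2) := by
      rw [show (fun x => (∑ S ∈ (insert i J).powerset, ρ ^ S.card * f S * chi S x) ^ (2 * r)) =
        fun x => (u x + ρ * (sg (x i) * v x)) ^ (2 * r) from funext fun x => by rw [hsplit]]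
      have h1 : avg (fun x => (u x + ρ * (sg (x i) * v x)) ^ (2 * r)) =
          avg (fun x => (u x - ρ * (sg (x i) * v x)) ^ (2 * r)) := by
        rw [← avg_flip i]
        congr 1
        funext x
        rw [hufl, hvfl, flip_same, sg_not]
        ring
      have h2 : avg (fun x => (u x + ρ * (sg (x i) * v x)) ^ (2 * r)) =
          avg (fun x => ((u x + ρ * (sg (x i) * v x)) ^ (2 * r) + (u x - ρ * (sg (x i) * v x)) ^ (2 * r)) / 2) := by
        rw [show (fun x => ((u x + ρ * (sg (x i) * v x)) ^ (2 * r) + (u x - ρ * (sg (x i) * v x)) ^ (2 * r)) / 2) =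
          fun x => (1 / 2) * ((u x + ρ * (sg (x i) * v x)) ^ (2 * r) + (u x - ρ * (sg (x i) * v x)) ^ (2 * r)) from
          funext fun x => by ring, avg_mul_left, avg_add, ← h1]
        ring
      rw [h2]
      congr 1
      funext x
      cases hx : x i <;> simp [sg] <;> ring
    rw [hstep]
    have hsum : ∑ S ∈ (insert i J).powerset, f S ^ 2 =
        ∑ S ∈ J.powerset, f S ^ 2 + ∑ S ∈ J.powerset, f (insert i S) ^ 2 := Finset.sum_powerset_insert hi _
    rw [hsum]
    set A := ∑ S ∈ J.powerset, f S ^ 2 with hA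
    set B := ∑ S ∈ J.powerset, f (insert i S) ^ 2 with hB
    have hA0 : 0 ≤ A := Finset.sum_nonneg fun S _ => sq_nonneg _
    have hB0 : 0 ≤ B := Finset.sum_nonneg fun S _ => sq_nonneg _
    have hu1 := ih f
    have hv1 := ih (fun S => f (insert i S))
    rcases hA0.eq_or_lt with hA1 | hA1
    · have hz : ∀ S ∈ J.powerset, f S = 0 := by
        intro S hS
        have := (Finset.sum_eq_zero_iff_of_nonneg (fun S _ => sq_nonneg (f S))).1 hA1.symm S hS
        exact pow_eq_zero_iff (two_ne_zero) |>.1 this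
      have hu0 : ∀ x, u x = 0 := fun x => Finset.sum_eq_zero fun S hS => by rw [hz S hS]; ring
      rw [← hA1, zero_add]
      refine le_trans (avg_mono fun x => ?_) hv1
      rw [hu0 x]
      have hρ1 : ρ ^ 2 ≤ 1 := by
        have : (1:ℝ) ≤ r := by exact_mod_cast hr
        nlinarith [sq_nonneg ρ]
      have : (ρ * v x) ^ (2 * r) ≤ v x ^ (2 * r) := by
        rw [mul_pow, pow_mul ρ]
        have h1 : (ρ ^ 2) ^ r ≤ 1 := pow_le_one₀ (sq_nonneg _) hρ1
        have h2 : 0 ≤ v x ^ (2 * r) := by rw [pow_mul]; positivity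
        nlinarith
      have e : ((0:ℝ) - ρ * v x) ^ (2 * r) = (ρ * v x) ^ (2 * r) := by
        rw [zero_sub, Even.neg_pow ⟨r, by ring⟩]
      rw [e, zero_add]
      linarith
    rcases hB0.eq_or_lt with hB1 | hB1
    · have hz : ∀ S ∈ J.powerset, f (insert i S) = 0 := by
        intro S hS
        have := (Finset.sum_eq_zero_iff_of_nonneg (fun S _ => sq_nonneg (f (insert i S)))).1 hB1.symm S hS
        exact pow_eq_zero_iff (two_ne_zero) |>.1 this
      have hv0 : ∀ x, v x = 0 := fun x => Finset.sum_eq_zero fun S hS => by rw [hz S hS]; ring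
      rw [← hB1, add_zero]
      refine le_trans (le_of_eq ?_) hu1
      congr 1
      funext x
      rw [hv0 x]
      ring
    · refine le_trans (avg_mono fun x => two_point (u x) (v x) ρ r hr hρ) ?_
      exact minkowski u v A B hA1 hB1 r hr hu1 hv1

/-! ### The level inequality -/

/-- The Fourier weight on the sets of size `l`. -/
noncomputable def wt (f : (I → Bool) → ℝ) (l : ℕ) : ℝ := ∑ S ∈ (univ : Finset (Finset I)) with S.card = l, ft f S ^ 2

theorem wt_nonneg (f : (I → Bool) → ℝ) (l : ℕ) : 0 ≤ wt f l := Finset.sum_nonneg fun S _ => sq_nonneg _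

/-- `W_l(A)^r ≤ (2r-1)^(lr) μ^(2r-1)` for `0 ≤ A ≤ 1` with mean `μ`. -/
theorem level (A : (I → Bool) → ℝ) (h0 : ∀ x, 0 ≤ A x) (h1 : ∀ x, A x ≤ 1) (r : ℕ) (hr : 1 ≤ r) (l : ℕ) :
    wt A l ^ r ≤ ((2 * r - 1 : ℝ) ^ l) ^ r * avg A ^ (2 * r - 1) := by
  have h3 : (0:ℝ) < 2 * r - 1 := by
    have : (1:ℝ) ≤ r := by exact_mod_cast hr
    linarith
  set q : ℝ := 2 * r - 1 with hq
  set W := wt A l with hW
  have hW0 : 0 ≤ W := wt_nonneg _ _
  rcases hW0.eq_or_lt with hz | hWpos
  · rw [← hz, zero_pow (by omega)]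
    have : 0 ≤ avg A := avg_nonneg h0
    positivity
  set p : (I → Bool) → ℝ := fun x => ∑ S ∈ (univ : Finset (Finset I)) with S.card = l, ft A S * chi S x with hp
  -- `W = E A p`
  have e1 : W = avg (fun x => A x * p x) := by
    have : (fun x => A x * p x) = fun x => ∑ S ∈ (univ : Finset (Finset I)) with S.card = l, ft A S * (A x * chi S x) := by
      funext x
      rw [hp]; simp only
      rw [Finset.mul_sum]
      exact Finset.sum_congr rfl fun S _ => by ring
    rw [this, avg_sum, hW, wt]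
    exact Finset.sum_congr rfl fun S _ => by rw [avg_mul_left, sq]; rfl
  -- Bonami
  have e2 : avg (fun x => p x ^ (2 * r)) ≤ (q ^ l * W) ^ r := by
    have hb := bonami r hr (1 / Real.sqrt q) (by
      rw [div_pow, Real.sq_sqrt h3.le, one_pow, ← hq]
      rw [one_div, inv_mul_cancel₀ h3.ne']) (univ : Finset I)
      (fun S => if S.card = l then Real.sqrt q ^ l * ft A S else 0)
    rw [Finset.powerset_univ] at hb
    have hl : ∀ x, ∑ S : Finset I, (1 / Real.sqrt q) ^ S.card *
        (if S.card = l then Real.sqrt q ^ l * ft A S else 0) * chi S x = p x := by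
      intro x
      rw [hp]; simp only
      rw [Finset.sum_filter]
      refine Finset.sum_congr rfl fun S _ => ?_
      split_ifs with hS
      · rw [hS]
        have : (1 / Real.sqrt q) ^ l * Real.sqrt q ^ l = 1 := by
          rw [← mul_pow, one_div, inv_mul_cancel₀ (Real.sqrt_ne_zero'.2 h3), one_pow]
        linear_combination (ft A S * chi S x) * this
      · ring
    have hr2 : ∑ S : Finset I, (if S.card = l then Real.sqrt q ^ l * ft A S else 0) ^ 2 = q ^ l * W := by
      rw [hW, wt, Finset.mul_sum, Finset.sum_filter]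
      refine Finset.sum_congr rfl fun S _ => ?_
      split_ifs with hS
      · rw [mul_pow, ← pow_mul, mul_comm l 2, pow_mul, Real.sq_sqrt h3.le]
      · ring
    rw [hr2] at hb
    simpa only [hl] using hb
  -- Jensen
  have hmu0 : 0 ≤ avg A := avg_nonneg h0
  have hmu : 0 < avg A := by
    rcases hmu0.eq_or_lt with h | h
    · exfalso
      have hA0 : ∀ x, A x = 0 := by
        have hs : ∑ x, A x = 0 := by
          have := h.symm
          unfold avg at this
          rcases div_eq_zero_iff.1 this with h' | h'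
          · exact h'
          · exact absurd h' (by positivity)
        exact fun x => (Finset.sum_eq_zero_iff_of_nonneg fun x _ => h0 x).1 hs x (Finset.mem_univ x)
      rw [e1] at hWpos
      have : avg (fun x => A x * p x) = 0 := by
        rw [show (fun x => A x * p x) = fun _ => 0 from funext fun x => by rw [hA0 x]; ring, avg_const]
      linarith
    · exact h
  have e3 : (avg (fun x => A x * p x)) ^ (2 * r) ≤ avg A ^ (2 * r - 1) * avg (fun x => A x * p x ^ (2 * r)) := by
    have hS : 0 < ∑ x, A x := by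
      unfold avg at hmu
      by_contra hcon
      push Not at hcon
      have : (∑ x, A x) / 2 ^ Fintype.card I ≤ 0 := div_nonpos_of_nonpos_of_nonneg hcon (by positivity)
      linarith
    have hj := Real.pow_arith_mean_le_arith_mean_pow_of_even (univ : Finset (I → Bool))
      (fun x => A x / ∑ y, A y) p (fun x _ => div_nonneg (h0 x) hS.le)
      (by rw [← Finset.sum_div, div_self hS.ne']) (n := 2 * r) ⟨r, by ring⟩
    have f1 : ∑ x, A x / (∑ y, A y) * p x = (∑ x, A x * p x) / ∑ y, A y := by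
      rw [Finset.sum_div]; exact Finset.sum_congr rfl fun x _ => by ring
    have f2 : ∑ x, A x / (∑ y, A y) * p x ^ (2 * r) = (∑ x, A x * p x ^ (2 * r)) / ∑ y, A y := by
      rw [Finset.sum_div]; exact Finset.sum_congr rfl fun x _ => by ring
    rw [f1, f2, div_pow, div_le_div_iff₀ (by positivity) hS] at hj
    unfold avg
    rw [div_pow, div_pow, ← mul_div_mul_comm, div_le_div_iff₀ (by positivity) (by positivity)]
    have g1 : (∑ x, A x * p x) ^ (2 * r) ≤ (∑ x, A x * p x ^ (2 * r)) * (∑ y, A y) ^ (2 * r - 1) := by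
      have : (∑ y, A y) ^ (2 * r) = (∑ y, A y) ^ (2 * r - 1) * ∑ y, A y := by
        rw [← pow_succ]; congr 1; omega
      rw [this, ← mul_assoc] at hj
      exact le_of_mul_le_mul_right hj hS
    have g2 : ((2:ℝ) ^ Fintype.card I) ^ (2 * r) = (2 ^ Fintype.card I) ^ (2 * r - 1) * 2 ^ Fintype.card I := by
      rw [← pow_succ]; congr 1; omega
    rw [g2]
    have g3 : (0:ℝ) < (2 ^ Fintype.card I) ^ (2 * r - 1) * 2 ^ Fintype.card I := by positivity
    nlinarith [mul_le_mul_of_nonneg_right g1 g3.le]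
  have e4 : avg (fun x => A x * p x ^ (2 * r)) ≤ avg (fun x => p x ^ (2 * r)) := by
    refine avg_mono fun x => ?_
    have : 0 ≤ p x ^ (2 * r) := by rw [pow_mul]; positivity
    nlinarith [h1 x]
  have e5 : W ^ (2 * r) ≤ avg A ^ (2 * r - 1) * (q ^ l * W) ^ r := by
    calc W ^ (2 * r) = (avg (fun x => A x * p x)) ^ (2 * r) := by rw [← e1]
      _ ≤ avg A ^ (2 * r - 1) * avg (fun x => A x * p x ^ (2 * r)) := e3
      _ ≤ avg A ^ (2 * r - 1) * (q ^ l * W) ^ r := by
          have := le_trans e4 e2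
          gcongr
  have e6 : W ^ r * W ^ r ≤ ((q ^ l) ^ r * avg A ^ (2 * r - 1)) * W ^ r := by
    calc W ^ r * W ^ r = W ^ (2 * r) := by rw [← pow_add]; congr 1; ring
      _ ≤ avg A ^ (2 * r - 1) * (q ^ l * W) ^ r := e5
      _ = ((q ^ l) ^ r * avg A ^ (2 * r - 1)) * W ^ r := by rw [mul_pow]; ring
  exact le_of_mul_le_mul_right e6 (by positivity)

end Pool.Agent.H.MP_dd1c2e_lc.Fo
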