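import Pool.Agent.H.MP_dd1c2e_lc.fo.Bon

/-!
# The sum over the leaves of a protocol

A family of at most `2^(2r)` weighted rectangles `a_π(x) b_π(y)`, tested against a distribution whose Fourier coefficients
are at most `L^(-|S|)` for `|S| ≤ L` and at most `β^|S|` always.
-/

namespace Pool.Agent.H.MP_dd1c2e_lc.Fo

open Finset

variable {I : Type} [Fintype I] [DecidableEq I]

/-- Young's inequality in the form that is used. -/
theorem young (n : ℕ) (hn : 1 ≤ n) (x m K : ℝ) (hx : 0 ≤ x) (hm : 0 ≤ m) (hK : 0 ≤ K) (h : x ^ n ≤ K ^ n * m ^ (n - 1)) :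
    x ≤ K * ((2 * (n - 1) * m + (1 / 2) ^ (n - 1)) / n) := by
  have hn0 : (0:ℝ) < n := by exact_mod_cast hn
  have hn1 : (1:ℝ) ≤ n := by exact_mod_cast hn
  obtain ⟨u, hu⟩ : ∃ u, u = 2 * m := ⟨_, rfl⟩
  obtain ⟨v, hv⟩ : ∃ v : ℝ, v = (1 / 2) ^ (n - 1) := ⟨_, rfl⟩
  rw [← hv]
  have hv0 : 0 < v := by rw [hv]; positivity
  have hu0 : 0 ≤ u := by rw [hu]; positivity
  have hy : 2 * (n - 1) * m + v = (n - 1) * u + v := by rw [hu]; ring
  rw [hy]
  have hAM : u ^ (n - 1) * v ≤ (((n - 1) * u + v) / n) ^ n := by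
    rcases hu0.eq_or_lt with h0 | hpos
    · rw [← h0]
      rcases Nat.eq_or_lt_of_le hn with h1 | h1
      · subst h1; simp
      · rw [zero_pow (by omega), zero_mul]
        positivity
    · have hb := one_add_mul_le_pow (a := (v - u) / (n * u)) (by
        rw [le_div_iff₀ (by positivity)]
        nlinarith) n
      have e1 : ((n - 1) * u + v) / n = u * (1 + (v - u) / (n * u)) := by field_simp; ring
      rw [e1, mul_pow]
      have e2 : u ^ n * (1 + n * ((v - u) / (n * u))) = u ^ (n - 1) * v := by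
        have : 1 + n * ((v - u) / (n * u)) = v / u := by field_simp; ring
        rw [this]
        have hnn : u ^ n = u ^ (n - 1) * u := by rw [← pow_succ]; congr 1; omega
        rw [hnn]; field_simp
      rw [← e2]
      exact mul_le_mul_of_nonneg_left hb (by positivity)
  have e3 : u ^ (n - 1) * v = m ^ (n - 1) := by
    rw [hu, hv, mul_pow, one_div, inv_pow]
    field_simp
  rw [e3] at hAM
  have hy0 : 0 ≤ ((n - 1) * u + v) / n := by
    have : 0 ≤ (n - 1 : ℝ) := by linarith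
    positivity
  refine le_of_pow_le_pow_left₀ (show n ≠ 0 by omega) (mul_nonneg hK hy0) ?_
  calc x ^ n ≤ K ^ n * m ^ (n - 1) := h
    _ ≤ K ^ n * (((n - 1) * u + v) / n) ^ n := by gcongr
    _ = (K * (((n - 1) * u + v) / n)) ^ n := by rw [mul_pow]

/-- One level, summed over the leaves. -/
theorem leaf_level {P : Type} [Fintype P] (a b : P → (I → Bool) → ℝ) (ha0 : ∀ π x, 0 ≤ a π x) (ha1 : ∀ π x, a π x ≤ 1)
    (hb0 : ∀ π x, 0 ≤ b π x) (hb1 : ∀ π x, b π x ≤ 1) (hm : ∑ π, avg (a π) * avg (b π) ≤ 1) (r : ℕ) (hr : 1 ≤ r)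
    (hP : (Fintype.card P : ℝ) ≤ 2 ^ (2 * r)) (l : ℕ) :
    ∑ π, ∑ S ∈ (univ : Finset (Finset I)) with S.card = l, |ft (a π) S * ft (b π) S| ≤ 2 * (2 * r - 1 : ℝ) ^ l := by
  have h3 : (0:ℝ) < 2 * r - 1 := by
    have : (1:ℝ) ≤ r := by exact_mod_cast hr
    linarith
  set q : ℝ := 2 * r - 1 with hq
  have hX : ∀ π, ∑ S ∈ (univ : Finset (Finset I)) with S.card = l, |ft (a π) S * ft (b π) S| ≤
      q ^ l * ((2 * ((2 * r : ℕ) - 1 : ℝ) * (avg (a π) * avg (b π)) + (1 / 2) ^ (2 * r - 1)) / (2 * r : ℕ)) := by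
    intro π
    set X := ∑ S ∈ (univ : Finset (Finset I)) with S.card = l, |ft (a π) S * ft (b π) S| with hXd
    have hX0 : 0 ≤ X := Finset.sum_nonneg fun S _ => abs_nonneg _
    have hma : 0 ≤ avg (a π) := avg_nonneg (ha0 π)
    have hmb : 0 ≤ avg (b π) := avg_nonneg (hb0 π)
    refine young (2 * r) (by omega) X _ _ hX0 (mul_nonneg hma hmb) (by positivity) ?_
    have hcs : X ^ 2 ≤ wt (a π) l * wt (b π) l := by
      have := Finset.sum_mul_sq_le_sq_mul_sq ((univ : Finset (Finset I)).filter fun S => S.card = l)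
        (fun S => |ft (a π) S|) (fun S => |ft (b π) S|)
      simp only [sq_abs] at this
      rw [hXd]
      simp only [abs_mul]
      exact this
    calc X ^ (2 * r) = (X ^ 2) ^ r := by rw [pow_mul]
      _ ≤ (wt (a π) l * wt (b π) l) ^ r := by gcongr
      _ = wt (a π) l ^ r * wt (b π) l ^ r := mul_pow _ _ _
      _ ≤ ((q ^ l) ^ r * avg (a π) ^ (2 * r - 1)) * ((q ^ l) ^ r * avg (b π) ^ (2 * r - 1)) := by
          have h1 := level (a π) (ha0 π) (ha1 π) r hr l
          have h2 := level (b π) (hb0 π) (hb1 π) r hr l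
          rw [← hq] at h1 h2
          have h4 : 0 ≤ wt (b π) l ^ r := pow_nonneg (wt_nonneg _ _) _
          have h5 : 0 ≤ (q ^ l) ^ r * avg (a π) ^ (2 * r - 1) := by positivity
          exact mul_le_mul h1 h2 h4 h5
      _ = (q ^ l) ^ (2 * r) * (avg (a π) * avg (b π)) ^ (2 * r - 1) := by
          rw [mul_pow (avg (a π)), two_mul r, pow_add]; ring
  refine le_trans (Finset.sum_le_sum fun π _ => hX π) ?_
  rw [← Finset.mul_sum, ← Finset.sum_div, Finset.sum_add_distrib, ← Finset.mul_sum, Finset.sum_const,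
    Finset.card_univ, nsmul_eq_mul]
  have hr1 : (1:ℝ) ≤ r := by exact_mod_cast hr
  have hc : ((2 * r : ℕ) : ℝ) = 2 * r := by push_cast; ring
  rw [hc]
  have e1 : (Fintype.card P : ℝ) * (1 / 2) ^ (2 * r - 1) ≤ 2 := by
    calc (Fintype.card P : ℝ) * (1 / 2) ^ (2 * r - 1) ≤ 2 ^ (2 * r) * (1 / 2) ^ (2 * r - 1) := by gcongr
      _ = 2 := by
        have : (2:ℝ) ^ (2 * r) = 2 ^ (2 * r - 1) * 2 := by rw [← pow_succ]; congr 1; omega
        rw [this, one_div, inv_pow]; field_simp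
  have e2 : 2 * (2 * r - 1 : ℝ) * ∑ π, avg (a π) * avg (b π) ≤ 2 * (2 * r - 1) := by
    have : (0:ℝ) ≤ 2 * (2 * r - 1) := by linarith
    nlinarith
  have e3 : (2 * (2 * r - 1 : ℝ) * ∑ π, avg (a π) * avg (b π) + (Fintype.card P : ℝ) * (1 / 2) ^ (2 * r - 1)) / (2 * r)
      ≤ 2 := by
    rw [div_le_iff₀ (by positivity)]
    linarith
  calc q ^ l * ((2 * (2 * r - 1 : ℝ) * ∑ π, avg (a π) * avg (b π) +
        (Fintype.card P : ℝ) * (1 / 2) ^ (2 * r - 1)) / (2 * r)) ≤ q ^ l * 2 := by gcongr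
    _ = 2 * q ^ l := by ring

/-- All levels with the trivial weight, summed over the leaves. -/
theorem leaf_all {P : Type} [Fintype P] (a b : P → (I → Bool) → ℝ) (ha0 : ∀ π x, 0 ≤ a π x) (ha1 : ∀ π x, a π x ≤ 1)
    (hb0 : ∀ π x, 0 ≤ b π x) (hb1 : ∀ π x, b π x ≤ 1) (hm : ∑ π, avg (a π) * avg (b π) ≤ 1) (r : ℕ)
    (hP : (Fintype.card P : ℝ) ≤ 2 ^ (2 * r)) :
    ∑ π, ∑ S : Finset I, |ft (a π) S * ft (b π) S| ≤ 2 ^ r := by
  have hX : ∀ π, ∑ S : Finset I, |ft (a π) S * ft (b π) S| ≤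
      (2 ^ r * (avg (a π) * avg (b π)) + (1 / 2) ^ r) / 2 := by
    intro π
    set X := ∑ S : Finset I, |ft (a π) S * ft (b π) S| with hXd
    have hma : 0 ≤ avg (a π) := avg_nonneg (ha0 π)
    have hmb : 0 ≤ avg (b π) := avg_nonneg (hb0 π)
    have hcs : X ^ 2 ≤ avg (a π) * avg (b π) := by
      have h1 := Finset.sum_mul_sq_le_sq_mul_sq (univ : Finset (Finset I)) (fun S => |ft (a π) S|) (fun S => |ft (b π) S|)
      simp only [sq_abs] at h1
      have h2 : ∑ S : Finset I, ft (a π) S ^ 2 ≤ avg (a π) := by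
        have := plancherel (a π) (a π)
        rw [Finset.sum_congr rfl (fun S _ => sq (ft (a π) S)), ← this]
        exact avg_mono fun x => by nlinarith [ha0 π x, ha1 π x]
      have h3 : ∑ S : Finset I, ft (b π) S ^ 2 ≤ avg (b π) := by
        have := plancherel (b π) (b π)
        rw [Finset.sum_congr rfl (fun S _ => sq (ft (b π) S)), ← this]
        exact avg_mono fun x => by nlinarith [hb0 π x, hb1 π x]
      have h4 : 0 ≤ ∑ S : Finset I, ft (b π) S ^ 2 := Finset.sum_nonneg fun S _ => sq_nonneg _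
      rw [hXd]
      simp only [abs_mul]
      exact le_trans h1 (mul_le_mul h2 h3 h4 hma)
    have hX0 : 0 ≤ X := Finset.sum_nonneg fun S _ => abs_nonneg _
    -- `X ≤ sqrt m ≤ (λ m + 1/λ)/2`
    set m := avg (a π) * avg (b π) with hmd
    have hl : (0:ℝ) < 2 ^ r := by positivity
    have e : (1 / 2 : ℝ) ^ r = 1 / 2 ^ r := by rw [one_div, inv_pow, one_div]
    rw [e]
    have hge : X ^ 2 ≤ ((2 ^ r * m + 1 / 2 ^ r) / 2) ^ 2 := by
      refine le_trans hcs ?_
      have : ((2 ^ r * m + 1 / 2 ^ r) / 2) ^ 2 - m = ((2 ^ r * m - 1 / 2 ^ r) / 2) ^ 2 := by field_simp; ring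
      nlinarith [sq_nonneg ((2 ^ r * m - 1 / 2 ^ r) / 2)]
    have hm0 : 0 ≤ m := mul_nonneg hma hmb
    exact le_of_sq_le_sq hge (by positivity)
  refine le_trans (Finset.sum_le_sum fun π _ => hX π) ?_
  rw [← Finset.sum_div, Finset.sum_add_distrib, ← Finset.mul_sum, Finset.sum_const, Finset.card_univ, nsmul_eq_mul]
  have e1 : (Fintype.card P : ℝ) * (1 / 2) ^ r ≤ 2 ^ r := by
    calc (Fintype.card P : ℝ) * (1 / 2) ^ r ≤ 2 ^ (2 * r) * (1 / 2) ^ r := by gcongr
      _ = 2 ^ r := by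
        rw [two_mul, pow_add, one_div, inv_pow]; field_simp
  have e2 : (2:ℝ) ^ r * ∑ π, avg (a π) * avg (b π) ≤ 2 ^ r := by
    have : (0:ℝ) < 2 ^ r := by positivity
    nlinarith
  linarith

/-- The main estimate: weighted rectangles do not distinguish a distribution with small Fourier coefficients from the
uniform one. -/
theorem leaves {P : Type} [Fintype P] (a b : P → (I → Bool) → ℝ) (ha0 : ∀ π x, 0 ≤ a π x) (ha1 : ∀ π x, a π x ≤ 1)
    (hb0 : ∀ π x, 0 ≤ b π x) (hb1 : ∀ π x, b π x ≤ 1) (hm : ∑ π, avg (a π) * avg (b π) ≤ 1) (e : P → ℝ)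
    (he : ∀ π, |e π| ≤ 1) (r L : ℕ) (hr : 1 ≤ r) (hL : 4 * r ≤ L) (hP : (Fintype.card P : ℝ) ≤ 2 ^ (2 * r))
    (d : Finset I → ℝ) (hd1 : ∀ S : Finset I, S.card ≤ L → |d S| ≤ (1 / (L : ℝ)) ^ S.card) (β : ℝ) (hβ0 : 0 ≤ β)
    (hβ1 : β ≤ 1) (hd2 : ∀ S : Finset I, |d S| ≤ β ^ S.card) (hβ : β ^ (L + 1) * 2 ^ r ≤ 2 * r / L) :
    |∑ π, e π * ∑ S ∈ (univ : Finset (Finset I)) with S ≠ ∅, ft (a π) S * ft (b π) S * d S| ≤ 10 * r / L := by
  have hL0 : (0:ℝ) < L := by exact_mod_cast (by omega : 0 < L)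
  have hr1 : (1:ℝ) ≤ r := by exact_mod_cast hr
  have hLr : 4 * (r:ℝ) ≤ L := by exact_mod_cast hL
  -- termwise bound
  have hterm : ∀ π, |e π * ∑ S ∈ (univ : Finset (Finset I)) with S ≠ ∅, ft (a π) S * ft (b π) S * d S| ≤
      ∑ l ∈ range L, (1 / (L : ℝ)) ^ (l + 1) *
        ∑ S ∈ (univ : Finset (Finset I)) with S.card = l + 1, |ft (a π) S * ft (b π) S| +
      β ^ (L + 1) * ∑ S : Finset I, |ft (a π) S * ft (b π) S| := by
    intro π
    rw [abs_mul]
    calc |e π| * |∑ S ∈ (univ : Finset (Finset I)) with S ≠ ∅, ft (a π) S * ft (b π) S * d S|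
        ≤ 1 * ∑ S ∈ (univ : Finset (Finset I)) with S ≠ ∅, |ft (a π) S * ft (b π) S * d S| := by
          refine mul_le_mul (he π) (Finset.abs_sum_le_sum_abs _ _) (abs_nonneg _) zero_le_one
      _ = ∑ S : Finset I, if S ≠ ∅ then |ft (a π) S * ft (b π) S * d S| else 0 := by
          rw [one_mul, Finset.sum_filter]
      _ ≤ ∑ S : Finset I, (∑ l ∈ range L, (if S.card = l + 1 then (1 / (L : ℝ)) ^ (l + 1) *
            |ft (a π) S * ft (b π) S| else 0) + β ^ (L + 1) * |ft (a π) S * ft (b π) S|) := by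
          refine Finset.sum_le_sum fun S _ => ?_
          have hnn : ∀ l ∈ range L, 0 ≤ (if S.card = l + 1 then (1 / (L : ℝ)) ^ (l + 1) *
            |ft (a π) S * ft (b π) S| else 0) := by
            intro l _
            split_ifs
            · positivity
            · exact le_rfl
          have hh : 0 ≤ β ^ (L + 1) * |ft (a π) S * ft (b π) S| := by positivity
          split_ifs with hS
          · by_cases hc : S.card ≤ L
            · have hc1 : 1 ≤ S.card := Finset.card_pos.2 (Finset.nonempty_iff_ne_empty.2 hS)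
              have hmem : S.card - 1 ∈ range L := Finset.mem_range.2 (by omega)
              have h1 := Finset.single_le_sum hnn hmem
              rw [if_pos (by omega)] at h1
              have h2 : S.card - 1 + 1 = S.card := by omega
              rw [h2] at h1
              have h3 : |ft (a π) S * ft (b π) S * d S| ≤ (1 / (L : ℝ)) ^ S.card * |ft (a π) S * ft (b π) S| := by
                rw [abs_mul, mul_comm]
                exact mul_le_mul_of_nonneg_right (hd1 S hc) (abs_nonneg _)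
              linarith
            · push Not at hc
              have h3 : |ft (a π) S * ft (b π) S * d S| ≤ β ^ (L + 1) * |ft (a π) S * ft (b π) S| := by
                rw [abs_mul, mul_comm]
                refine mul_le_mul_of_nonneg_right (le_trans (hd2 S) ?_) (abs_nonneg _)
                exact pow_le_pow_of_le_one hβ0 hβ1 (by omega)
              have := Finset.sum_nonneg hnn
              linarith
          · have := Finset.sum_nonneg hnn
            linarith
      _ = _ := by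
          rw [Finset.sum_add_distrib, Finset.sum_comm, ← Finset.mul_sum]
          congr 1
          refine Finset.sum_congr rfl fun l _ => ?_
          rw [Finset.mul_sum, Finset.sum_filter]
  calc |∑ π, e π * ∑ S ∈ (univ : Finset (Finset I)) with S ≠ ∅, ft (a π) S * ft (b π) S * d S|
      ≤ ∑ π, |e π * ∑ S ∈ (univ : Finset (Finset I)) with S ≠ ∅, ft (a π) S * ft (b π) S * d S| :=
        Finset.abs_sum_le_sum_abs _ _
    _ ≤ ∑ π, (∑ l ∈ range L, (1 / (L : ℝ)) ^ (l + 1) *
        ∑ S ∈ (univ : Finset (Finset I)) with S.card = l + 1, |ft (a π) S * ft (b π) S| +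
      β ^ (L + 1) * ∑ S : Finset I, |ft (a π) S * ft (b π) S|) := Finset.sum_le_sum fun π _ => hterm π
    _ = ∑ l ∈ range L, (1 / (L : ℝ)) ^ (l + 1) *
        ∑ π, ∑ S ∈ (univ : Finset (Finset I)) with S.card = l + 1, |ft (a π) S * ft (b π) S| +
      β ^ (L + 1) * ∑ π, ∑ S : Finset I, |ft (a π) S * ft (b π) S| := by
        rw [Finset.sum_add_distrib, Finset.sum_comm, ← Finset.mul_sum]
        congr 1
        exact Finset.sum_congr rfl fun l _ => by rw [Finset.mul_sum]
    _ ≤ ∑ l ∈ range L, (1 / (L : ℝ)) ^ (l + 1) * (2 * (2 * r - 1 : ℝ) ^ (l + 1)) + β ^ (L + 1) * 2 ^ r := by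
        gcongr with l hl
        · exact leaf_level a b ha0 ha1 hb0 hb1 hm r hr hP (l + 1)
        · exact leaf_all a b ha0 ha1 hb0 hb1 hm r hP
    _ ≤ ∑ l ∈ range L, (2 * (2 * r / L)) * (1 / 2 : ℝ) ^ l + 2 * r / L := by
        refine add_le_add (Finset.sum_le_sum fun l _ => ?_) ?_
        · set t : ℝ := 2 * r / L with ht
          have ht0 : 0 ≤ t := by positivity
          have ht1 : t ≤ 1 / 2 := by rw [ht, div_le_iff₀ hL0]; linarith
          calc (1 / (L : ℝ)) ^ (l + 1) * (2 * (2 * r - 1 : ℝ) ^ (l + 1))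
              = 2 * ((2 * r - 1) / L) ^ (l + 1) := by rw [div_pow, div_pow, one_pow]; ring
            _ ≤ 2 * t ^ (l + 1) := by
                have h0 : 0 ≤ (2 * r - 1 : ℝ) / L := div_nonneg (by linarith) hL0.le
                have h1 : (2 * r - 1 : ℝ) / L ≤ t := by rw [ht]; gcongr; linarith
                gcongr
            _ = (2 * t) * t ^ l := by ring
            _ ≤ (2 * t) * (1 / 2) ^ l := by gcongr
        · exact hβ
    _ ≤ 10 * r / L := by
        rw [← Finset.mul_sum]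
        have hg : ∑ l ∈ range L, (1 / 2 : ℝ) ^ l ≤ 2 := by
          have := geom_sum_eq (show (1/2:ℝ) ≠ 1 by norm_num) L
          rw [this]
          have h1 : (0:ℝ) < (1 / 2) ^ L := by positivity
          rw [div_le_iff_of_neg (by norm_num)]
          linarith
        have h2 : (0:ℝ) ≤ 2 * (2 * r / L) := by positivity
        calc 2 * (2 * r / L) * ∑ l ∈ range L, (1 / 2 : ℝ) ^ l + 2 * r / L
            ≤ 2 * (2 * r / L) * 2 + 2 * r / L := by gcongr
          _ = 10 * r / L := by ring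

end Pool.Agent.H.MP_dd1c2e_lc.Fo
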