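import Pool.Agent.H.MP_dd1c2e_lc.fo.Sine
import Pool.Agent.H.MP_dd1c2e_lc.neg.Base

/-!
# The base problem by sine rounding
-/

namespace Pool.Agent.H.MP_dd1c2e_lc.Fo

open Finset MeasureTheory ProbabilityTheory
open Pool.Agent.H.MP_dd1c2e_lc.Neg (Had SumProd forrB forr av)

variable {I : Type} [Fintype I] [DecidableEq I]

/-- The vectors: the standard basis and the rows of `H`. -/
def gv (H : I → I → ℝ) : I ⊕ I → I → ℝ := Sum.elim (fun i k => if k = i then 1 else 0) (fun j k => H j k)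

/-- The quadratic form. -/
theorem gram {H : I → I → ℝ} (hH : Had I H) (T : Finset (I ⊕ I)) (σ : I ⊕ I → Bool) :
    ∑ k, (∑ s ∈ T, sg (σ s) * gv H s k) ^ 2 =
      T.card + 2 * ∑ p ∈ T.toLeft ×ˢ T.toRight, sg (σ (Sum.inl p.1)) * sg (σ (Sum.inr p.2)) * H p.2 p.1 := by
  have h1 : ∀ k, ∑ s ∈ T, sg (σ s) * gv H s k =
      (if k ∈ T.toLeft then sg (σ (Sum.inl k)) else 0) + ∑ j ∈ T.toRight, sg (σ (Sum.inr j)) * H j k := by
    intro k
    conv_lhs => rw [← Finset.toLeft_disjSum_toRight (u := T)]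
    rw [Finset.sum_disjSum]
    congr 1
    simp only [gv, Sum.elim_inl, mul_ite, mul_one, mul_zero]
    rw [Finset.sum_ite_eq]
  have h2 : ∀ k, (∑ s ∈ T, sg (σ s) * gv H s k) ^ 2 =
      (if k ∈ T.toLeft then 1 else 0) +
      2 * (if k ∈ T.toLeft then sg (σ (Sum.inl k)) * ∑ j ∈ T.toRight, sg (σ (Sum.inr j)) * H j k else 0) +
      (∑ j ∈ T.toRight, sg (σ (Sum.inr j)) * H j k) ^ 2 := by
    intro k
    rw [h1 k]
    split_ifs with h
    · have := sg_sq (σ (Sum.inl k))
      linear_combination this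
    · ring
  rw [Finset.sum_congr rfl (fun k _ => h2 k), Finset.sum_add_distrib, Finset.sum_add_distrib]
  have h3 : ∑ k : I, (if k ∈ T.toLeft then (1:ℝ) else 0) = T.toLeft.card := by
    rw [Finset.sum_ite_mem, Finset.univ_inter, Finset.sum_const, nsmul_eq_mul, mul_one]
  have h4 : ∑ k : I, (∑ j ∈ T.toRight, sg (σ (Sum.inr j)) * H j k) ^ 2 = T.toRight.card := by
    have h5 : ∀ k : I, (∑ j ∈ T.toRight, sg (σ (Sum.inr j)) * H j k) ^ 2 =
        ∑ j ∈ T.toRight, ∑ j' ∈ T.toRight, (sg (σ (Sum.inr j)) * sg (σ (Sum.inr j'))) * (H j k * H j' k) := by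
      intro k
      rw [sq, Finset.sum_mul_sum]
      exact Finset.sum_congr rfl fun j _ => Finset.sum_congr rfl fun j' _ => by ring
    rw [Finset.sum_congr rfl (fun k _ => h5 k), Finset.sum_comm]
    have h6 : ∀ j ∈ T.toRight, ∑ k : I, ∑ j' ∈ T.toRight, (sg (σ (Sum.inr j)) * sg (σ (Sum.inr j'))) * (H j k * H j' k)
        = 1 := by
      intro j hj
      rw [Finset.sum_comm]
      have h7 : ∀ j' ∈ T.toRight, ∑ k : I, (sg (σ (Sum.inr j)) * sg (σ (Sum.inr j'))) * (H j k * H j' k) =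
          if j = j' then 1 else 0 := by
        intro j' _
        rw [← Finset.mul_sum, hH.row]
        split_ifs with h
        · subst h; rw [sg_sq, mul_one]
        · rw [mul_zero]
      rw [Finset.sum_congr rfl h7, Finset.sum_ite_eq, if_pos hj]
    rw [Finset.sum_congr rfl h6, Finset.sum_const, nsmul_eq_mul, mul_one]
  have h8 : ∑ k : I, 2 * (if k ∈ T.toLeft then sg (σ (Sum.inl k)) * ∑ j ∈ T.toRight, sg (σ (Sum.inr j)) * H j k else 0)
      = 2 * ∑ p ∈ T.toLeft ×ˢ T.toRight, sg (σ (Sum.inl p.1)) * sg (σ (Sum.inr p.2)) * H p.2 p.1 := by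
    rw [← Finset.mul_sum, Finset.sum_ite_mem, Finset.univ_inter, Finset.sum_product]
    congr 1
    refine Finset.sum_congr rfl fun k _ => ?_
    rw [Finset.mul_sum]
    exact Finset.sum_congr rfl fun j _ => by ring
  rw [h3, h4, h8]
  have h9 : (T.card : ℝ) = T.toLeft.card + T.toRight.card := by
    rw [← Finset.card_toLeft_add_card_toRight (u := T)]; push_cast; ring
  rw [h9]; ring

theorem had_abs [Nonempty I] {H : I → I → ℝ} (hH : Had I H) (j i : I) : |H j i| = 1 / Real.sqrt (Fintype.card I) := by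
  have h := hH.sq j i
  have h1 : |H j i| = Real.sqrt (H j i ^ 2) := (Real.sqrt_sq_eq_abs _).symm
  rw [h1, h, Real.sqrt_div zero_le_one, Real.sqrt_one]

/-- The coefficients of low order. -/
theorem coef_small [Nonempty I] {H : I → I → ℝ} (hH : Had I H) (L : ℕ) (hL : 1 ≤ L) (hN : L ^ 8 ≤ Fintype.card I)
    (T : Finset (I ⊕ I)) (hT : 1 ≤ T.card) (hTL : T.card ≤ L) :
    |∫ w, ∏ s ∈ T, Real.sin (th (gv H) w s) ∂(gam I)| ≤ (1 / (L : ℝ)) ^ T.card := by
  rw [coef_eq]
  have hL0 : (0:ℝ) < L := by exact_mod_cast (by omega : 0 < L)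
  set A := T.toLeft with hA
  set B := T.toRight with hB
  have hcard : A.card + B.card = T.card := Finset.card_toLeft_add_card_toRight
  set q : I × I → (I ⊕ I → Bool) → ℝ := fun p σ => sg (σ (Sum.inl p.1)) * sg (σ (Sum.inr p.2)) * H p.2 p.1 with hq
  have h1 : (fun σ : I ⊕ I → Bool => chi T σ * Real.exp (-(∑ k, (∑ s ∈ T, sg (σ s) * gv H s k) ^ 2) / 2)) =
      fun σ => Real.exp (-(T.card : ℝ) / 2) * (chi T σ * Real.exp (-(∑ p ∈ A ×ˢ B, q p σ))) := by
    funext σ
    rw [gram hH]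
    have : Real.exp (-((T.card : ℝ) + 2 * ∑ p ∈ A ×ˢ B, sg (σ (Sum.inl p.1)) * sg (σ (Sum.inr p.2)) * H p.2 p.1) / 2) =
        Real.exp (-(T.card : ℝ) / 2) * Real.exp (-(∑ p ∈ A ×ˢ B, q p σ)) := by
      rw [← Real.exp_add]
      congr 1
      rw [hq]; ring
    rw [this]; ring
  rw [h1, avg_mul_left, abs_mul, abs_of_pos (Real.exp_pos _)]
  have h2 : Real.exp (-(T.card : ℝ) / 2) ≤ 1 := by
    rw [Real.exp_le_one_iff]
    have : (0:ℝ) ≤ T.card := Nat.cast_nonneg _
    linarith
  -- the size of `Q`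
  set κ : ℝ := (1 / (2 * (L:ℝ))) ^ 2 with hκ
  have hκ1 : κ ≤ 1 := by
    rw [hκ]
    refine pow_le_one₀ (by positivity) ?_
    rw [div_le_one (by positivity)]
    have : (1:ℝ) ≤ L := by exact_mod_cast hL
    linarith
  have hsq : (L:ℝ) ^ 4 ≤ Real.sqrt (Fintype.card I) := by
    refine Real.le_sqrt_of_sq_le ?_
    have : ((L:ℝ) ^ 4) ^ 2 = ((L ^ 8 : ℕ) : ℝ) := by push_cast; ring
    rw [this]
    exact_mod_cast hN
  have hsN : 0 < Real.sqrt (Fintype.card I) := by
    have : (0:ℝ) < L ^ 4 := by positivity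
    linarith
  have hQ : ∀ σ, |∑ p ∈ A ×ˢ B, q p σ| ≤ κ := by
    intro σ
    calc |∑ p ∈ A ×ˢ B, q p σ| ≤ ∑ p ∈ A ×ˢ B, |q p σ| := Finset.abs_sum_le_sum_abs _ _
      _ = ∑ p ∈ A ×ˢ B, 1 / Real.sqrt (Fintype.card I) := by
          refine Finset.sum_congr rfl fun p _ => ?_
          rw [hq]; simp only
          rw [abs_mul, abs_mul, abs_sg, abs_sg, one_mul, one_mul, had_abs hH]
      _ = (A.card * B.card : ℝ) * (1 / Real.sqrt (Fintype.card I)) := by
          rw [Finset.sum_const, Finset.card_product, nsmul_eq_mul]; push_cast; ring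
      _ ≤ ((L:ℝ) ^ 2 / 4) * (1 / (L:ℝ) ^ 4) := by
          have e1 : (A.card * B.card : ℝ) ≤ (L:ℝ) ^ 2 / 4 := by
            have e2 : (A.card : ℝ) + B.card ≤ L := by
              have : A.card + B.card ≤ L := by omega
              exact_mod_cast this
            have e3 : (0:ℝ) ≤ A.card := Nat.cast_nonneg _
            have e4 : (0:ℝ) ≤ B.card := Nat.cast_nonneg _
            nlinarith [sq_nonneg ((A.card : ℝ) - B.card)]
          gcongr
      _ = κ := by rw [hκ]; field_simp; norm_num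
  have hfin : ∀ R : ℕ, T.card ≤ 2 * R → 2 * κ ^ R ≤ (1 / (L : ℝ)) ^ T.card := by
    intro R hR
    have e1 : κ ^ R = (1 / (2 * (L:ℝ))) ^ (2 * R) := by rw [hκ, ← pow_mul]
    rw [e1]
    have e2 : (1 / (2 * (L:ℝ))) ^ (2 * R) ≤ (1 / (2 * (L:ℝ))) ^ T.card := by
      refine pow_le_pow_of_le_one (by positivity) ?_ hR
      rw [div_le_one (by positivity)]
      have : (1:ℝ) ≤ L := by exact_mod_cast hL
      linarith
    have e3 : (1 / (2 * (L:ℝ))) ^ T.card = (1 / 2) ^ T.card * (1 / (L:ℝ)) ^ T.card := by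
      rw [← mul_pow]; congr 1; field_simp
    have e4 : (1 / 2 : ℝ) ^ T.card ≤ 1 / 2 := by
      calc (1 / 2 : ℝ) ^ T.card ≤ (1 / 2) ^ 1 := pow_le_pow_of_le_one (by norm_num) (by norm_num) hT
        _ = 1 / 2 := pow_one _
    have e5 : (0:ℝ) ≤ (1 / (L:ℝ)) ^ T.card := by positivity
    rw [e3] at e2
    nlinarith
  rcases le_total B.card A.card with hAB | hAB
  · have hR : T.card ≤ 2 * A.card := by omega
    have hb := top_bound (A ×ˢ B) q T (A.map ⟨Sum.inl, Sum.inl_injective⟩) (by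
        intro s hs
        rw [Finset.mem_map] at hs
        obtain ⟨i, hi, rfl⟩ := hs
        exact Finset.mem_toLeft.1 hi) (fun p => Sum.inl p.1) (by
        intro p _ s hs hne σ
        rw [Finset.mem_map] at hs
        obtain ⟨i, _, rfl⟩ := hs
        simp only [hq, Function.Embedding.coeFn_mk] at hne ⊢
        rw [flip_ne (fun h => hne h.symm), flip_ne (by simp)]) κ hκ1 hQ (by rw [Finset.card_map]; omega)
    rw [Finset.card_map] at hb
    calc Real.exp (-(T.card : ℝ) / 2) * |avg (fun σ => chi T σ * Real.exp (-(∑ p ∈ A ×ˢ B, q p σ)))|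
        ≤ 1 * (2 * κ ^ A.card) := mul_le_mul h2 hb (abs_nonneg _) zero_le_one
      _ ≤ _ := by rw [one_mul]; exact hfin _ hR
  · have hR : T.card ≤ 2 * B.card := by omega
    have hb := top_bound (A ×ˢ B) q T (B.map ⟨Sum.inr, Sum.inr_injective⟩) (by
        intro s hs
        rw [Finset.mem_map] at hs
        obtain ⟨i, hi, rfl⟩ := hs
        exact Finset.mem_toRight.1 hi) (fun p => Sum.inr p.2) (by
        intro p _ s hs hne σ
        rw [Finset.mem_map] at hs
        obtain ⟨i, _, rfl⟩ := hs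
        simp only [hq, Function.Embedding.coeFn_mk] at hne ⊢
        rw [flip_ne (by simp), flip_ne (fun h => hne h.symm)]) κ hκ1 hQ (by rw [Finset.card_map]; omega)
    rw [Finset.card_map] at hb
    calc Real.exp (-(T.card : ℝ) / 2) * |avg (fun σ => chi T σ * Real.exp (-(∑ p ∈ A ×ˢ B, q p σ)))|
        ≤ 1 * (2 * κ ^ B.card) := mul_le_mul h2 hb (abs_nonneg _) zero_le_one
      _ ≤ _ := by rw [one_mul]; exact hfin _ hR

/-! ### The forrelation of the law -/

theorem gauss_cos {J : Type} [Fintype J] (t : J → ℝ) :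
    ∫ w, Real.cos (∑ k, t k * w k) ∂(gam J) = Real.exp (-(∑ k, t k ^ 2) / 2) := by
  have h := gauss_exp t
  have hi : Integrable (fun w : J → ℝ => Complex.exp ((∑ k, t k * w k : ℝ) * Complex.I)) (gam J) := by
    refine integrable_of_cont _ (by fun_prop) 1 fun w => ?_
    rw [Complex.norm_exp_ofReal_mul_I]
  have h2 := congrArg Complex.re h
  have h3 : ∫ w, (Complex.exp ((∑ k, t k * w k : ℝ) * Complex.I)).re ∂(gam J) =
      (∫ w, Complex.exp ((∑ k, t k * w k : ℝ) * Complex.I) ∂(gam J)).re := integral_re hi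
  rw [← h3, Complex.ofReal_re] at h2
  simpa only [Complex.exp_ofReal_mul_I_re] using h2

/-- The covariance of two rounded signs. -/
theorem sin_sin {H : I → I → ℝ} (hH : Had I H) (i j : I) :
    ∫ w, Real.sin (th (gv H) w (Sum.inl i)) * Real.sin (th (gv H) w (Sum.inr j)) ∂(gam I) =
      Real.exp (-1) * Real.sinh (H j i) := by
  have h1 : ∀ w, Real.sin (th (gv H) w (Sum.inl i)) * Real.sin (th (gv H) w (Sum.inr j)) =
      (1 / 2) * Real.cos (∑ k, (gv H (Sum.inl i) k - gv H (Sum.inr j) k) * w k) -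
      (1 / 2) * Real.cos (∑ k, (gv H (Sum.inl i) k + gv H (Sum.inr j) k) * w k) := by
    intro w
    have e1 : ∑ k, (gv H (Sum.inl i) k - gv H (Sum.inr j) k) * w k =
        th (gv H) w (Sum.inl i) - th (gv H) w (Sum.inr j) := by
      unfold th
      rw [← Finset.sum_sub_distrib]
      exact Finset.sum_congr rfl fun k _ => by ring
    have e2 : ∑ k, (gv H (Sum.inl i) k + gv H (Sum.inr j) k) * w k =
        th (gv H) w (Sum.inl i) + th (gv H) w (Sum.inr j) := by
      unfold th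
      rw [← Finset.sum_add_distrib]
      exact Finset.sum_congr rfl fun k _ => by ring
    rw [e1, e2, Real.cos_sub, Real.cos_add]
    ring
  have hint : ∀ t : I → ℝ, Integrable (fun w : I → ℝ => Real.cos (∑ k, t k * w k)) (gam I) := fun t =>
    integrable_of_cont _ (by fun_prop) 1 fun w => by rw [Real.norm_eq_abs]; exact Real.abs_cos_le_one _
  simp_rw [h1]
  rw [integral_sub ((hint _).const_mul _) ((hint _).const_mul _), integral_const_mul, integral_const_mul, gauss_cos,
    gauss_cos]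
  have hr : ∑ k, H j k ^ 2 = 1 := by
    have := hH.row j j
    rw [if_pos rfl] at this
    rw [← this]
    exact Finset.sum_congr rfl fun k _ => by ring
  have hl : ∀ ε : ℝ, ∑ k, (gv H (Sum.inl i) k + ε * gv H (Sum.inr j) k) ^ 2 = 1 + 2 * ε * H j i + ε ^ 2 := by
    intro ε
    have e : ∀ k, (gv H (Sum.inl i) k + ε * gv H (Sum.inr j) k) ^ 2 =
        (if k = i then 1 + 2 * ε * H j i else 0) + ε ^ 2 * H j k ^ 2 := by
      intro k
      simp only [gv, Sum.elim_inl, Sum.elim_inr]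
      split_ifs with h
      · subst h; ring
      · ring
    rw [Finset.sum_congr rfl (fun k _ => e k), Finset.sum_add_distrib, ← Finset.mul_sum, hr, Finset.sum_ite_eq']
    simp
  have h5 := hl (-1)
  have h6 := hl 1
  have e5 : ∑ k, (gv H (Sum.inl i) k - gv H (Sum.inr j) k) ^ 2 = 2 - 2 * H j i := by
    rw [show (2 - 2 * H j i : ℝ) = 1 + 2 * (-1) * H j i + (-1) ^ 2 by ring, ← h5]
    exact Finset.sum_congr rfl fun k _ => by ring
  have e6 : ∑ k, (gv H (Sum.inl i) k + gv H (Sum.inr j) k) ^ 2 = 2 + 2 * H j i := by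
    rw [show (2 + 2 * H j i : ℝ) = 1 + 2 * 1 * H j i + 1 ^ 2 by ring, ← h6]
    exact Finset.sum_congr rfl fun k _ => by ring
  rw [e5, e6, Real.sinh_eq, show -(2 - 2 * H j i) / 2 = -1 + H j i by ring,
    show -(2 + 2 * H j i) / 2 = -1 + -H j i by ring, Real.exp_add, Real.exp_add]
  ring

theorem mul_sinh_ge (c : ℝ) : c ^ 2 ≤ c * Real.sinh c := by
  rcases le_total 0 c with h | h
  · have := Real.self_le_sinh_iff.2 h
    nlinarith
  · have := Real.sinh_le_self_iff.2 h
    nlinarith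

/-- The mean of the forrelation is at least `a² / e`. -/
theorem law_forr [Nonempty I] {H : I → I → ℝ} (hH : Had I H) (a : ℝ) :
    a ^ 2 * Real.exp (-1) ≤ ∑ z, law a (gv H) z * forr H (fun s => sg (z s)) := by
  have hN : (0:ℝ) < Fintype.card I := by exact_mod_cast Fintype.card_pos
  have h1 : ∀ z : I ⊕ I → Bool, law a (gv H) z * forr H (fun s => sg (z s)) =
      (1 / (Fintype.card I : ℝ)) * ∑ j, ∑ i, H j i * (law a (gv H) z * chi {Sum.inl i, Sum.inr j} z) := by
    intro z
    unfold forr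
    have : ∀ i j : I, chi ({Sum.inl i, Sum.inr j} : Finset (I ⊕ I)) z = sg (z (Sum.inl i)) * sg (z (Sum.inr j)) := by
      intro i j
      unfold chi
      rw [Finset.prod_pair (by simp)]
    simp_rw [this]
    rw [div_eq_mul_one_div, Finset.mul_sum, mul_comm, Finset.sum_mul, Finset.sum_mul]
    refine Finset.sum_congr rfl fun j _ => ?_
    rw [Finset.mul_sum, Finset.sum_mul, Finset.sum_mul]
    exact Finset.sum_congr rfl fun i _ => by ring
  rw [Finset.sum_congr rfl (fun z _ => h1 z), ← Finset.mul_sum, Finset.sum_comm]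
  have h2 : ∀ j, ∑ z : I ⊕ I → Bool, ∑ i, H j i * (law a (gv H) z * chi {Sum.inl i, Sum.inr j} z) =
      ∑ i, H j i * (a ^ 2 * (Real.exp (-1) * Real.sinh (H j i))) := by
    intro j
    rw [Finset.sum_comm]
    refine Finset.sum_congr rfl fun i _ => ?_
    rw [← Finset.mul_sum, sum_law_chi, Finset.card_pair (by simp)]
    congr 2
    rw [← sin_sin hH i j]
    congr 1
    funext w
    rw [Finset.prod_pair (by simp)]
  rw [Finset.sum_congr rfl (fun j _ => h2 j)]
  have h3 : ∑ j : I, ∑ i : I, a ^ 2 * Real.exp (-1) * H j i ^ 2 = a ^ 2 * Real.exp (-1) * Fintype.card I := by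
    have : ∀ j : I, ∑ i : I, a ^ 2 * Real.exp (-1) * H j i ^ 2 = a ^ 2 * Real.exp (-1) := by
      intro j
      rw [← Finset.mul_sum]
      have hr := hH.row j j
      rw [if_pos rfl] at hr
      rw [show ∑ i, H j i ^ 2 = 1 from by rw [← hr]; exact Finset.sum_congr rfl fun k _ => by ring, mul_one]
    rw [Finset.sum_congr rfl (fun j _ => this j), Finset.sum_const, Finset.card_univ, nsmul_eq_mul]
    ring
  have h4 : ∑ j : I, ∑ i : I, a ^ 2 * Real.exp (-1) * H j i ^ 2 ≤
      ∑ j : I, ∑ i : I, H j i * (a ^ 2 * (Real.exp (-1) * Real.sinh (H j i))) := by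
    refine Finset.sum_le_sum fun j _ => Finset.sum_le_sum fun i _ => ?_
    have h5 := mul_sinh_ge (H j i)
    have h6 : 0 ≤ a ^ 2 * Real.exp (-1) := mul_nonneg (sq_nonneg _) (Real.exp_pos _).le
    have := mul_le_mul_of_nonneg_left h5 h6
    linarith
  rw [h3] at h4
  rw [one_div, le_inv_mul_iff₀ hN]
  linarith

theorem av_eq_avg {J : Type} [Fintype J] [DecidableEq J] (f : (J → Bool) → ℝ) : av f = avg f := by
  unfold av avg
  rw [card_cube]

/-- Averages of products in terms of the Fourier coefficients. -/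
theorem law_pair {S J : Type} [Fintype S] [DecidableEq S] [Fintype J] (a : ℝ) (g : S → J → ℝ) (A B : (S → Bool) → ℝ) :
    (∑ z, law a g z * avg (fun x => A x * B (fun i => Bool.xor (x i) (z i)))) -
      avg (fun z => avg (fun x => A x * B (fun i => Bool.xor (x i) (z i)))) =
    ∑ T ∈ (univ : Finset (Finset S)) with T ≠ ∅, ft A T * ft B T *
      (a ^ T.card * ∫ w, ∏ s ∈ T, Real.sin (th g w s) ∂(gam J)) := by
  set h : (S → Bool) → ℝ := fun z => avg (fun x => A x * B (fun i => Bool.xor (x i) (z i))) with hh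
  have h1 : ∑ z, law a g z * h z = ∑ T : Finset S, ft h T * (a ^ T.card * ∫ w, ∏ s ∈ T, Real.sin (th g w s) ∂(gam J)) := by
    have : ∀ z, law a g z * h z = ∑ T : Finset S, ft h T * (law a g z * chi T z) := by
      intro z
      conv_lhs => rw [inversion h z]
      rw [Finset.mul_sum]
      exact Finset.sum_congr rfl fun T _ => by ring
    rw [Finset.sum_congr rfl (fun z _ => this z), Finset.sum_comm]
    exact Finset.sum_congr rfl fun T _ => by rw [← Finset.mul_sum, sum_law_chi]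
  have h2 : avg h = ft h ∅ := by
    unfold ft
    simp only [chi_empty, mul_one]
  have h3 : ∀ T, ft h T = ft A T * ft B T := fun T => ft_conv A B T
  rw [h1, h2]
  have h4 : ∑ T : Finset S, ft h T * (a ^ T.card * ∫ w, ∏ s ∈ T, Real.sin (th g w s) ∂(gam J)) =
      ft h ∅ + ∑ T ∈ (univ : Finset (Finset S)) with T ≠ ∅, ft h T *
        (a ^ T.card * ∫ w, ∏ s ∈ T, Real.sin (th g w s) ∂(gam J)) := by
    rw [← Finset.add_sum_erase _ _ (Finset.mem_univ ∅)]
    congr 1
    · simp
    · refine Finset.sum_congr ?_ fun T _ => rfl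
      ext T
      simp
  rw [h4, add_sub_cancel_left]
  exact Finset.sum_congr rfl fun T _ => by rw [h3]

/-- The number of pairs of inputs: a law of `x xor y` gives a law of pairs. -/
theorem sum_pair {S : Type} [Fintype S] [DecidableEq S] (f : (S → Bool) → ℝ) (C : (S → Bool) → (S → Bool) → ℝ) :
    ∑ x, ∑ y, f (fun i => Bool.xor (x i) (y i)) / 2 ^ Fintype.card S * C x y =
      ∑ z, f z * avg (fun x => C x (fun i => Bool.xor (x i) (z i))) := by
  have h : ∀ x : S → Bool, ∑ y : S → Bool, f (fun i => Bool.xor (x i) (y i)) / 2 ^ Fintype.card S * C x y =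
      ∑ z : S → Bool, f z / 2 ^ Fintype.card S * C x (fun i => Bool.xor (x i) (z i)) := by
    intro x
    refine Fintype.sum_equiv ⟨fun y i => Bool.xor (x i) (y i), fun y i => Bool.xor (x i) (y i), ?_, ?_⟩ _ _ ?_
    · intro z; funext i; simp
    · intro z; funext i; simp
    · intro z
      simp only [Equiv.coe_fn_mk]
      congr 2
      funext i
      simp
  rw [Finset.sum_congr rfl (fun x _ => h x), Finset.sum_comm]
  refine Finset.sum_congr rfl fun z _ => ?_
  unfold avg
  rw [Finset.sum_div, Finset.mul_sum]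
  exact Finset.sum_congr rfl fun x _ => by ring

theorem num_bound (r L : ℕ) (hr : 1 ≤ r) (h1 : 20 * r ≤ L) (h2 : 1024 ≤ L) :
    (9 / 10 : ℝ) ^ (L + 1) * 2 ^ r ≤ 2 * r / L := by
  have hL0 : (0:ℝ) < L := by exact_mod_cast (by omega : 0 < L)
  have e1 : (2:ℝ) ^ r ≤ (19 / 18) ^ L := by
    calc (2:ℝ) ^ r ≤ ((19 / 18) ^ 20) ^ r := by
          refine pow_le_pow_left₀ (by norm_num) (by norm_num) r
      _ = (19 / 18) ^ (20 * r) := by rw [← pow_mul]
      _ ≤ (19 / 18) ^ L := pow_le_pow_right₀ (by norm_num) h1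
  have e2 : (9 / 10 : ℝ) ^ (L + 1) * 2 ^ r ≤ (19 / 20) ^ L := by
    calc (9 / 10 : ℝ) ^ (L + 1) * 2 ^ r ≤ (9 / 10) ^ L * (19 / 18) ^ L := by
          have : (9 / 10 : ℝ) ^ (L + 1) ≤ (9 / 10) ^ L := pow_le_pow_of_le_one (by norm_num) (by norm_num) (by omega)
          exact mul_le_mul this e1 (by positivity) (by positivity)
      _ = (19 / 20) ^ L := by rw [← mul_pow]; norm_num
  refine le_trans e2 ?_
  obtain ⟨m, hm⟩ : ∃ m, m = L / 2 := ⟨_, rfl⟩
  have hm2 : 2 * m ≤ L := by omega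
  have hm3 : L ≤ 2 * m + 1 := by omega
  have hb := one_add_mul_le_pow (a := (1 / 19 : ℝ)) (by norm_num) m
  have e3 : (20 / 19 : ℝ) ^ m = (1 + 1 / 19) ^ m := by norm_num
  have e4 : (1 + (m:ℝ) / 19) ≤ (20 / 19 : ℝ) ^ m := by rw [e3]; linarith
  have e5 : (L:ℝ) / 2 ≤ (20 / 19 : ℝ) ^ L := by
    have h3 : (L:ℝ) ≤ 2 * m + 1 := by exact_mod_cast hm3
    have h4 : (1024:ℝ) ≤ L := by exact_mod_cast h2
    calc (L:ℝ) / 2 ≤ (1 + (m:ℝ) / 19) ^ 2 := by nlinarith
      _ ≤ ((20 / 19 : ℝ) ^ m) ^ 2 := by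
          have : (0:ℝ) ≤ 1 + (m:ℝ) / 19 := by positivity
          gcongr
      _ = (20 / 19) ^ (2 * m) := by rw [← pow_mul, mul_comm]
      _ ≤ (20 / 19) ^ L := pow_le_pow_right₀ (by norm_num) hm2
  have e6 : (19 / 20 : ℝ) ^ L = 1 / (20 / 19) ^ L := by rw [one_div, ← inv_pow]; norm_num
  rw [e6]
  have h5 : (0:ℝ) < (20 / 19) ^ L := by positivity
  rw [div_le_div_iff₀ h5 hL0]
  have hr1 : (1:ℝ) ≤ r := by exact_mod_cast hr
  nlinarith

/-- **The base problem.** A law on pairs of inputs with forrelation at least `1/4` on average, which sums of `2^(2r)` weighted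
rectangles do not distinguish from the uniform law. -/
theorem one_copyS [Nonempty I] {H : I → I → ℝ} (hH : Had I H) :
    ∃ w1 : (I ⊕ I → Bool) → (I ⊕ I → Bool) → ℝ, (∀ x y, 0 ≤ w1 x y) ∧ ∑ x, ∑ y, w1 x y = 1 ∧
      1 / 4 ≤ ∑ x, ∑ y, w1 x y * forrB H x y ∧
      ∀ (r L : ℕ), 1 ≤ r → 20 * r ≤ L → 1024 ≤ L → L ^ 8 ≤ Fintype.card I →
        ∀ C : (I ⊕ I → Bool) → (I ⊕ I → Bool) → ℝ, SumProd _ _ (2 ^ (2 * r)) C →
        |∑ x, ∑ y, w1 x y * C x y - ∑ x, ∑ y, (1 / (Fintype.card (I ⊕ I → Bool) : ℝ) ^ 2) * C x y| ≤ 10 * r / L := by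
  refine ⟨fun x y => law (9 / 10) (gv H) (fun i => Bool.xor (x i) (y i)) / 2 ^ Fintype.card (I ⊕ I), ?_, ?_, ?_, ?_⟩
  · intro x y
    exact div_nonneg (law_nonneg (by norm_num) (by norm_num) _ _) (by positivity)
  · have h := sum_pair (law (9 / 10) (gv H)) (fun _ _ => 1)
    simp only [mul_one] at h
    rw [h]
    have : ∀ z : I ⊕ I → Bool, law (9 / 10) (gv H) z * avg (fun _ : I ⊕ I → Bool => (1:ℝ)) = law (9 / 10) (gv H) z := by
      intro z; rw [avg_const, mul_one]
    rw [Finset.sum_congr rfl (fun z _ => this z), law_sum]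
  · rw [sum_pair (law (9 / 10) (gv H)) (forrB H)]
    have h1 : ∀ z : I ⊕ I → Bool, law (9 / 10) (gv H) z * avg (fun x => forrB H x (fun i => Bool.xor (x i) (z i))) =
        law (9 / 10) (gv H) z * forr H (fun s => sg (z s)) := by
      intro z
      congr 1
      rw [← avg_const (I := I ⊕ I) (forr H (fun s => sg (z s)))]
      congr 1
      funext x
      unfold forrB
      congr 1
      funext s
      have e : ∀ b, Pool.Agent.H.MP_dd1c2e_lc.Neg.sg b = sg b := fun b => rfl
      rw [e, e, sg_xor, ← mul_assoc, sg_sq, one_mul]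
    rw [Finset.sum_congr rfl (fun z _ => h1 z)]
    refine le_trans ?_ (law_forr hH (9 / 10))
    have h2 := Real.exp_one_lt_d9
    have h3 : Real.exp (-1) = 1 / Real.exp 1 := by rw [Real.exp_neg, one_div]
    rw [h3, mul_one_div, div_le_div_iff₀ (by norm_num) (Real.exp_pos 1)]
    norm_num
    linarith
  · intro r L hr h20 hL hN C hC
    obtain ⟨f, g, hf, hg, hfg, hCe⟩ := hC
    have hL0 : (0:ℝ) < L := by exact_mod_cast (by omega : 0 < L)
    have hcard : (Fintype.card (I ⊕ I → Bool) : ℝ) = 2 ^ Fintype.card (I ⊕ I) := card_cube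
    have hm : ∑ l, avg (f l) * avg (g l) ≤ 1 := by
      have h1 : ∑ l, avg (f l) * avg (g l) = avg (fun x => avg (fun y => ∑ l, f l x * g l y)) := by
        have h2 : ∀ x, avg (fun y => ∑ l, f l x * g l y) = ∑ l, avg (g l) * f l x := by
          intro x
          rw [avg_sum]
          exact Finset.sum_congr rfl fun l _ => by rw [avg_mul_left]; ring
        simp_rw [h2]
        rw [avg_sum]
        exact Finset.sum_congr rfl fun l _ => by rw [avg_mul_left]; ring
      rw [h1]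
      have h2 : ∀ x, avg (fun y => ∑ l, f l x * g l y) ≤ 1 := fun x =>
        le_trans (avg_mono (g := fun _ => (1:ℝ)) fun y => hfg x y) (le_of_eq (avg_const _))
      exact le_trans (avg_mono (g := fun _ => (1:ℝ)) h2) (le_of_eq (avg_const _))
    have hkey := leaves f g (fun l x => (hf l x).1) (fun l x => (hf l x).2) (fun l x => (hg l x).1)
      (fun l x => (hg l x).2) hm (fun _ => 1) (fun _ => by simp) r L hr (by omega)
      (by rw [Fintype.card_fin]; push_cast; exact le_rfl)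
      (fun T => (9 / 10 : ℝ) ^ T.card * ∫ w, ∏ s ∈ T, Real.sin (th (gv H) w s) ∂(gam I))
      (by
        intro T hT
        rw [abs_mul, abs_of_pos (show (0:ℝ) < (9 / 10) ^ T.card by positivity)]
        rcases Nat.eq_zero_or_pos T.card with h0 | h0
        · rw [h0, pow_zero, pow_zero, one_mul]
          exact coef_le_one _ _
        · have h1 := coef_small hH L (by omega) hN T h0 hT
          have h2 : (9 / 10 : ℝ) ^ T.card ≤ 1 := pow_le_one₀ (by norm_num) (by norm_num)
          calc (9 / 10 : ℝ) ^ T.card * |∫ w, ∏ s ∈ T, Real.sin (th (gv H) w s) ∂(gam I)| ≤ 1 * (1 / (L:ℝ)) ^ T.card :=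
                mul_le_mul h2 h1 (abs_nonneg _) zero_le_one
            _ = _ := one_mul _)
      (9 / 10) (by norm_num) (by norm_num)
      (by
        intro T
        rw [abs_mul, abs_of_pos (show (0:ℝ) < (9 / 10) ^ T.card by positivity)]
        exact mul_le_of_le_one_right (by positivity) (coef_le_one _ _))
      (num_bound r L hr h20 hL)
    have e1 : ∑ x, ∑ y, law (9 / 10) (gv H) (fun i => Bool.xor (x i) (y i)) / 2 ^ Fintype.card (I ⊕ I) * C x y =
        ∑ l, ∑ z, law (9 / 10) (gv H) z * avg (fun x => f l x * g l (fun i => Bool.xor (x i) (z i))) := by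
      rw [sum_pair (law (9 / 10) (gv H)) C, Finset.sum_comm]
      refine Finset.sum_congr rfl fun z _ => ?_
      rw [← Finset.mul_sum, ← avg_sum]
      congr 2
      funext x
      exact hCe _ _
    have e2 : ∑ x, ∑ y, (1 / (Fintype.card (I ⊕ I → Bool) : ℝ) ^ 2) * C x y =
        ∑ l, avg (fun z => avg (fun x => f l x * g l (fun i => Bool.xor (x i) (z i)))) := by
      have h1 := sum_pair (S := I ⊕ I) (fun _ => 1 / 2 ^ Fintype.card (I ⊕ I)) C
      have h2 : ∀ x y : I ⊕ I → Bool, (1 / (Fintype.card (I ⊕ I → Bool) : ℝ) ^ 2) * C x y =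
          (1 / 2 ^ Fintype.card (I ⊕ I)) / 2 ^ Fintype.card (I ⊕ I) * C x y := by
        intro x y; rw [hcard]; congr 1; field_simp
      have h3 : ∀ F : (I ⊕ I → Bool) → ℝ, 1 / 2 ^ Fintype.card (I ⊕ I) * ∑ z, F z = avg F := by
        intro F; unfold avg; ring
      rw [Finset.sum_congr rfl (fun x _ => Finset.sum_congr rfl (fun y _ => h2 x y)), h1, ← Finset.mul_sum, h3,
        ← avg_sum]
      congr 1
      funext z
      rw [← avg_sum]
      congr 1
      funext x
      exact hCe _ _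
    rw [e1, e2, ← Finset.sum_sub_distrib]
    have e3 : ∀ l, (∑ z, law (9 / 10) (gv H) z * avg (fun x => f l x * g l (fun i => Bool.xor (x i) (z i)))) -
        avg (fun z => avg (fun x => f l x * g l (fun i => Bool.xor (x i) (z i)))) =
        (1:ℝ) * ∑ T ∈ (univ : Finset (Finset (I ⊕ I))) with T ≠ ∅, ft (f l) T * ft (g l) T *
          ((9 / 10 : ℝ) ^ T.card * ∫ w, ∏ s ∈ T, Real.sin (th (gv H) w s) ∂(gam I)) := by
      intro l
      rw [one_mul]
      exact law_pair (9 / 10) (gv H) (f l) (g l)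
    rw [Finset.sum_congr rfl (fun l _ => e3 l)]
    exact hkey

end Pool.Agent.H.MP_dd1c2e_lc.Fo
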