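import Pool.Agent.H.MP_dd1c2e_lc.fo.Leaf

/-!
# The hard distribution by sine rounding of a Gaussian vector

`z_s = ±1` with conditional mean `a sin ⟨g_s, w⟩`, `w` a standard Gaussian vector. The Fourier coefficients are computed
exactly with the characteristic function.
-/

namespace Pool.Agent.H.MP_dd1c2e_lc.Fo

open Finset MeasureTheory ProbabilityTheory

section gauss

variable {J : Type} [Fintype J]

/-- The standard Gaussian measure. -/
noncomputable def gam (J : Type) [Fintype J] : Measure (J → ℝ) := Measure.pi (fun _ => gaussianReal 0 1)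

instance : IsProbabilityMeasure (gam J) := by unfold gam; infer_instance

theorem gauss_exp (t : J → ℝ) :
    ∫ w, Complex.exp ((∑ k, t k * w k : ℝ) * Complex.I) ∂(gam J) = (Real.exp (-(∑ k, t k ^ 2) / 2) : ℝ) := by
  have h : ∀ w : J → ℝ, Complex.exp ((∑ k, t k * w k : ℝ) * Complex.I) =
      ∏ k, Complex.exp (t k * w k * Complex.I) := by
    intro w
    rw [← Complex.exp_sum]
    congr 1
    push_cast
    rw [Finset.sum_mul]
  simp_rw [h]
  unfold gam
  rw [integral_fintype_prod_eq_prod (fun k (x : ℝ) => Complex.exp (t k * x * Complex.I))]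
  have h2 : ∀ k, ∫ x : ℝ, Complex.exp (t k * x * Complex.I) ∂(gaussianReal 0 1) = Complex.exp (-(t k ^ 2) / 2) := by
    intro k
    rw [← charFun_apply_real, charFun_gaussianReal]
    congr 1
    push_cast
    ring
  rw [Finset.prod_congr rfl (fun k _ => h2 k), ← Complex.exp_sum, Complex.ofReal_exp]
  congr 1
  push_cast
  rw [← Finset.sum_div, Finset.sum_neg_distrib]

theorem integrable_of_cont {E : Type} [NormedAddCommGroup E] (f : (J → ℝ) → E) [SecondCountableTopologyEither (J → ℝ) E]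
    (hf : Continuous f) (C : ℝ) (hC : ∀ w, ‖f w‖ ≤ C) : Integrable f (gam J) :=
  Integrable.of_bound hf.aestronglyMeasurable C (Filter.Eventually.of_forall hC)

end gauss

variable {S J : Type} [Fintype S] [DecidableEq S] [Fintype J]

/-- The linear form. -/
noncomputable def th (g : S → J → ℝ) (w : J → ℝ) (s : S) : ℝ := ∑ k, g s k * w k

omit [Fintype S] [DecidableEq S] in
theorem th_cont (g : S → J → ℝ) (s : S) : Continuous fun w => th g w s := by
  unfold th; fun_prop

/-- The law of the rounded signs. -/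
noncomputable def law (a : ℝ) (g : S → J → ℝ) (z : S → Bool) : ℝ :=
  ∫ w, ∏ s, (1 + a * Real.sin (th g w s) * sg (z s)) / 2 ∂(gam J)

omit [DecidableEq S] in
theorem law_nonneg {a : ℝ} (h0 : 0 ≤ a) (h1 : a ≤ 1) (g : S → J → ℝ) (z : S → Bool) : 0 ≤ law a g z := by
  unfold law
  refine integral_nonneg fun w => Finset.prod_nonneg fun s _ => ?_
  have h2 : |a * Real.sin (th g w s) * sg (z s)| ≤ 1 := by
    rw [abs_mul, abs_mul, abs_sg, mul_one, abs_of_nonneg h0]
    exact mul_le_one₀ h1 (abs_nonneg _) (Real.abs_sin_le_one _)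
  have := (abs_le.1 h2).1
  linarith

theorem sum_prod_bool {R : Type} [CommRing R] (F : S → Bool → R) :
    ∑ z : S → Bool, ∏ s, F s (z s) = ∏ s, (F s false + F s true) := by
  have h := Finset.prod_univ_sum (fun _ : S => (univ : Finset Bool)) F
  rw [Fintype.piFinset_univ] at h
  rw [← h]
  refine Finset.prod_congr rfl fun s _ => ?_
  rw [Fintype.sum_bool, add_comm]

/-- The Fourier coefficients of the law. -/
theorem sum_law_chi (a : ℝ) (g : S → J → ℝ) (T : Finset S) :
    ∑ z : S → Bool, law a g z * chi T z = a ^ T.card * ∫ w, ∏ s ∈ T, Real.sin (th g w s) ∂(gam J) := by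
  unfold law
  have hint : ∀ z : S → Bool, Integrable (fun w => (∏ s, (1 + a * Real.sin (th g w s) * sg (z s)) / 2) * chi T z)
      (gam J) := by
    intro z
    refine integrable_of_cont _ ?_ (∏ s : S, (1 + |a|) / 2) ?_
    · refine Continuous.mul (continuous_finset_prod _ fun s _ => ?_) continuous_const
      have := th_cont g s
      fun_prop
    · intro w
      rw [norm_mul, Real.norm_eq_abs, Real.norm_eq_abs, abs_chi, mul_one, Finset.abs_prod]
      refine Finset.prod_le_prod (fun s _ => abs_nonneg _) fun s _ => ?_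
      rw [abs_div, abs_of_pos (show (0:ℝ) < 2 by norm_num)]
      have h2 : |a * Real.sin (th g w s) * sg (z s)| ≤ |a| := by
        rw [abs_mul, abs_mul, abs_sg, mul_one]
        exact mul_le_of_le_one_right (abs_nonneg _) (Real.abs_sin_le_one _)
      have h3 := abs_add_le 1 (a * Real.sin (th g w s) * sg (z s))
      rw [abs_one] at h3
      linarith
  have h1 : ∀ z : S → Bool, (∫ w, ∏ s, (1 + a * Real.sin (th g w s) * sg (z s)) / 2 ∂(gam J)) * chi T z =
      ∫ w, (∏ s, (1 + a * Real.sin (th g w s) * sg (z s)) / 2) * chi T z ∂(gam J) := by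
    intro z
    rw [integral_mul_const]
  rw [Finset.sum_congr rfl (fun z _ => h1 z), ← integral_finset_sum _ (fun z _ => hint z), ← integral_const_mul]
  congr 1
  funext w
  have h2 : ∀ z : S → Bool, (∏ s, (1 + a * Real.sin (th g w s) * sg (z s)) / 2) * chi T z =
      ∏ s, ((1 + a * Real.sin (th g w s) * sg (z s)) / 2 * if s ∈ T then sg (z s) else 1) := by
    intro z
    rw [Finset.prod_mul_distrib]
    congr 1
    unfold chi
    rw [Finset.prod_ite_mem, Finset.univ_inter]
  rw [Finset.sum_congr rfl (fun z _ => h2 z),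
    sum_prod_bool (fun s b => (1 + a * Real.sin (th g w s) * sg b) / 2 * if s ∈ T then sg b else 1)]
  have h3 : ∀ s, ((1 + a * Real.sin (th g w s) * sg false) / 2 * (if s ∈ T then sg false else 1) +
      (1 + a * Real.sin (th g w s) * sg true) / 2 * (if s ∈ T then sg true else 1)) =
      if s ∈ T then a * Real.sin (th g w s) else 1 := by
    intro s
    split_ifs <;> simp [sg] <;> ring
  rw [Finset.prod_congr rfl (fun s _ => h3 s), Finset.prod_ite_mem, Finset.univ_inter, Finset.prod_mul_distrib,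
    Finset.prod_const]

theorem law_sum (a : ℝ) (g : S → J → ℝ) : ∑ z : S → Bool, law a g z = 1 := by
  have h := sum_law_chi a g ∅
  simp only [chi_empty, mul_one, Finset.card_empty, pow_zero, one_mul, Finset.prod_empty] at h
  rw [h]
  simp

/-- The trivial bound. -/
theorem coef_le_one (g : S → J → ℝ) (T : Finset S) : |∫ w, ∏ s ∈ T, Real.sin (th g w s) ∂(gam J)| ≤ 1 := by
  have h : ∀ w, ‖∏ s ∈ T, Real.sin (th g w s)‖ ≤ 1 := by
    intro w
    rw [Real.norm_eq_abs, Finset.abs_prod]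
    exact Finset.prod_le_one (fun s _ => abs_nonneg _) fun s _ => Real.abs_sin_le_one _
  have := norm_integral_le_of_norm_le_const (μ := gam J) (Filter.Eventually.of_forall h)
  simpa using this

/-- The sum of the sines as an average of exponentials. -/
theorem sin_prod (T : Finset S) (θ : S → ℝ) :
    ∑ σ : S → Bool, (chi T σ : ℂ) * Complex.exp ((∑ s ∈ T, sg (σ s) * θ s : ℝ) * Complex.I) =
      2 ^ Fintype.card S * Complex.I ^ T.card * ((∏ s ∈ T, Real.sin (θ s) : ℝ) : ℂ) := by
  have h : ∀ σ : S → Bool, (chi T σ : ℂ) * Complex.exp ((∑ s ∈ T, sg (σ s) * θ s : ℝ) * Complex.I) =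
      ∏ s, (if s ∈ T then (sg (σ s) : ℂ) * Complex.exp ((sg (σ s) * θ s : ℝ) * Complex.I) else 1) := by
    intro σ
    rw [Finset.prod_ite_mem, Finset.univ_inter, Finset.prod_mul_distrib]
    congr 1
    · unfold chi; push_cast; rfl
    · rw [← Complex.exp_sum]
      congr 1
      push_cast
      rw [Finset.sum_mul]
  rw [Finset.sum_congr rfl (fun σ _ => h σ),
    sum_prod_bool (fun s b => if s ∈ T then (sg b : ℂ) * Complex.exp ((sg b * θ s : ℝ) * Complex.I) else 1)]
  have h2 : ∀ s, ((if s ∈ T then (sg false : ℂ) * Complex.exp ((sg false * θ s : ℝ) * Complex.I) else 1) +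
      (if s ∈ T then (sg true : ℂ) * Complex.exp ((sg true * θ s : ℝ) * Complex.I) else 1)) =
      2 * if s ∈ T then Complex.I * Real.sin (θ s) else 1 := by
    intro s
    split_ifs
    · simp only [sg]
      have e : ((-1 * θ s : ℝ) : ℂ) * Complex.I = -(θ s : ℂ) * Complex.I := by push_cast; ring
      have e' : ((1 * θ s : ℝ) : ℂ) * Complex.I = (θ s : ℂ) * Complex.I := by push_cast; ring
      simp only [Bool.false_eq_true, if_false, if_true]
      rw [e, e', Complex.ofReal_sin, Complex.sin]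
      have hI := Complex.I_mul_I
      push_cast
      linear_combination (-(Complex.exp (-(θ s : ℂ) * Complex.I) - Complex.exp ((θ s : ℂ) * Complex.I))) * hI
    · norm_num
  rw [Finset.prod_congr rfl (fun s _ => h2 s), Finset.prod_mul_distrib, Finset.prod_const, Finset.card_univ,
    Finset.prod_ite_mem, Finset.univ_inter, Finset.prod_mul_distrib, Finset.prod_const]
  push_cast
  ring

/-- The exact formula. -/
theorem coef_eq (g : S → J → ℝ) (T : Finset S) :
    |∫ w, ∏ s ∈ T, Real.sin (th g w s) ∂(gam J)| =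
      |avg (fun σ : S → Bool => chi T σ * Real.exp (-(∑ k, (∑ s ∈ T, sg (σ s) * g s k) ^ 2) / 2))| := by
  have h1 : ∀ σ : S → Bool, ∀ w : J → ℝ, (∑ s ∈ T, sg (σ s) * th g w s : ℝ) =
      ∑ k, (∑ s ∈ T, sg (σ s) * g s k) * w k := by
    intro σ w
    unfold th
    simp_rw [Finset.mul_sum, Finset.sum_mul]
    rw [Finset.sum_comm]
    exact Finset.sum_congr rfl fun k _ => Finset.sum_congr rfl fun s _ => by ring
  have h2 : ∫ w, ∑ σ : S → Bool, (chi T σ : ℂ) * Complex.exp ((∑ s ∈ T, sg (σ s) * th g w s : ℝ) * Complex.I) ∂(gam J) =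
      ∑ σ : S → Bool, (chi T σ : ℂ) * (Real.exp (-(∑ k, (∑ s ∈ T, sg (σ s) * g s k) ^ 2) / 2) : ℝ) := by
    rw [integral_finset_sum]
    · refine Finset.sum_congr rfl fun σ _ => ?_
      rw [integral_const_mul]
      congr 1
      simp_rw [h1 σ]
      exact gauss_exp _
    · intro σ _
      refine integrable_of_cont _ ?_ 1 ?_
      · have := fun s => th_cont g s
        fun_prop
      · intro w
        rw [norm_mul, Complex.norm_real, Real.norm_eq_abs, abs_chi, one_mul, Complex.norm_exp_ofReal_mul_I]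
  have h3 : ∫ w, ∑ σ : S → Bool, (chi T σ : ℂ) * Complex.exp ((∑ s ∈ T, sg (σ s) * th g w s : ℝ) * Complex.I) ∂(gam J) =
      2 ^ Fintype.card S * Complex.I ^ T.card * ((∫ w, ∏ s ∈ T, Real.sin (th g w s) ∂(gam J) : ℝ) : ℂ) := by
    simp_rw [sin_prod T]
    rw [integral_const_mul]
    congr 1
    exact integral_complex_ofReal
  rw [h2] at h3
  have h4 := congrArg (fun z : ℂ => ‖z‖) h3
  simp only [norm_mul, norm_pow, Complex.norm_I, one_pow, mul_one, Complex.norm_real, Real.norm_eq_abs,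
    Complex.norm_ofNat] at h4
  have h5 : ‖∑ σ : S → Bool, (chi T σ : ℂ) * (Real.exp (-(∑ k, (∑ s ∈ T, sg (σ s) * g s k) ^ 2) / 2) : ℝ)‖ =
      |∑ σ : S → Bool, chi T σ * Real.exp (-(∑ k, (∑ s ∈ T, sg (σ s) * g s k) ^ 2) / 2)| := by
    rw [← Real.norm_eq_abs, ← Complex.norm_real]
    congr 1
    push_cast
    rfl
  rw [h5] at h4
  unfold avg
  rw [abs_div, h4, abs_of_pos (show (0:ℝ) < 2 ^ Fintype.card S by positivity)]
  field_simp

/-! ### The lower orders vanish -/

theorem vanish {P : Type} (pp : Finset P) (q : P → (S → Bool) → ℝ) (T A : Finset S) (hAT : A ⊆ T) (ix : P → S)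
    (hq : ∀ p ∈ pp, ∀ i ∈ A, i ≠ ix p → ∀ σ, q p (flip i σ) = q p σ) :
    ∀ (m : ℕ) (U : Finset S) (G : (S → Bool) → ℝ), (∀ i ∈ A, i ∉ U → ∀ σ, G (flip i σ) = G σ) → U.card + m < A.card →
      avg (fun σ => chi T σ * (G σ * (∑ p ∈ pp, q p σ) ^ m)) = 0 := by
  intro m
  induction m with
  | zero =>
    intro U G hG hc
    obtain ⟨i, hi, hiU⟩ : ∃ i ∈ A, i ∉ U := by
      by_contra hcon
      push Not at hcon
      exact absurd (Finset.card_le_card hcon) (by omega)
    have h1 := avg_flip i (fun σ => chi T σ * (G σ * (∑ p ∈ pp, q p σ) ^ 0))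
    have h2 : avg (fun σ => chi T (flip i σ) * (G (flip i σ) * (∑ p ∈ pp, q p (flip i σ)) ^ 0)) =
        - avg (fun σ => chi T σ * (G σ * (∑ p ∈ pp, q p σ) ^ 0)) := by
      rw [show (fun σ => chi T (flip i σ) * (G (flip i σ) * (∑ p ∈ pp, q p (flip i σ)) ^ 0)) =
        fun σ => (-1) * (chi T σ * (G σ * (∑ p ∈ pp, q p σ) ^ 0)) from funext fun σ => by
          rw [chi_flip_mem (hAT hi), hG i hi hiU]; ring]
      rw [avg_mul_left]; ring
    linarith
  | succ m ih =>
    intro U G hG hc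
    have h1 : (fun σ => chi T σ * (G σ * (∑ p ∈ pp, q p σ) ^ (m + 1))) =
        fun σ => ∑ p ∈ pp, chi T σ * ((G σ * q p σ) * (∑ p ∈ pp, q p σ) ^ m) := by
      funext σ
      have h3 : ∑ p ∈ pp, chi T σ * ((G σ * q p σ) * (∑ p ∈ pp, q p σ) ^ m) =
          (∑ p ∈ pp, q p σ) * (chi T σ * G σ * (∑ p ∈ pp, q p σ) ^ m) := by
        rw [Finset.sum_mul]
        exact Finset.sum_congr rfl fun p _ => by ring
      rw [h3]; ring
    rw [h1, avg_sum]
    refine Finset.sum_eq_zero fun p hp => ?_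
    refine ih (insert (ix p) U) (fun σ => G σ * q p σ) ?_ ?_
    · intro i hi hiU σ
      rw [Finset.mem_insert, not_or] at hiU
      rw [hG i hi hiU.2, hq p hp i hi hiU.1]
    · have := Finset.card_insert_le (ix p) U
      omega

/-- The top coefficient of `exp (-Q)` is small. -/
theorem top_bound {P : Type} (pp : Finset P) (q : P → (S → Bool) → ℝ) (T A : Finset S) (hAT : A ⊆ T) (ix : P → S)
    (hq : ∀ p ∈ pp, ∀ i ∈ A, i ≠ ix p → ∀ σ, q p (flip i σ) = q p σ) (κ : ℝ) (hκ : κ ≤ 1)
    (hb : ∀ σ, |∑ p ∈ pp, q p σ| ≤ κ) (hA : 1 ≤ A.card) :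
    |avg (fun σ => chi T σ * Real.exp (-(∑ p ∈ pp, q p σ)))| ≤ 2 * κ ^ A.card := by
  set R := A.card with hR
  have hκ0 : 0 ≤ κ := le_trans (abs_nonneg _) (hb (fun _ => false))
  have h0 : avg (fun σ => chi T σ * ∑ m ∈ range R, (-(∑ p ∈ pp, q p σ)) ^ m / (m.factorial : ℝ)) = 0 := by
    have h1 : (fun σ => chi T σ * ∑ m ∈ range R, (-(∑ p ∈ pp, q p σ)) ^ m / (m.factorial : ℝ)) =
        fun σ => ∑ m ∈ range R, ((-1) ^ m / (m.factorial : ℝ)) * (chi T σ * (1 * (∑ p ∈ pp, q p σ) ^ m)) := by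
      funext σ
      rw [Finset.mul_sum]
      refine Finset.sum_congr rfl fun m _ => ?_
      rw [neg_pow]; ring
    rw [h1, avg_sum]
    refine Finset.sum_eq_zero fun m hm => ?_
    rw [avg_mul_left, vanish pp q T A hAT ix hq m ∅ (fun _ => 1) (fun _ _ _ _ => rfl)
      (by rw [Finset.card_empty, zero_add]; exact Finset.mem_range.1 hm), mul_zero]
  have h2 : avg (fun σ => chi T σ * Real.exp (-(∑ p ∈ pp, q p σ))) =
      avg (fun σ => chi T σ * (Real.exp (-(∑ p ∈ pp, q p σ)) -
        ∑ m ∈ range R, (-(∑ p ∈ pp, q p σ)) ^ m / (m.factorial : ℝ))) := by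
    have e : (fun σ => chi T σ * Real.exp (-(∑ p ∈ pp, q p σ))) = fun σ =>
        chi T σ * (Real.exp (-(∑ p ∈ pp, q p σ)) - ∑ m ∈ range R, (-(∑ p ∈ pp, q p σ)) ^ m / (m.factorial : ℝ)) +
        chi T σ * ∑ m ∈ range R, (-(∑ p ∈ pp, q p σ)) ^ m / (m.factorial : ℝ) := funext fun σ => by ring
    rw [e, avg_add, h0, add_zero]
  rw [h2]
  refine le_trans (abs_avg_le _) ?_
  refine le_trans (avg_mono (g := fun _ => 2 * κ ^ R) fun σ => ?_) (le_of_eq (avg_const _))
  rw [abs_mul, abs_chi, one_mul]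
  have hx : |-(∑ p ∈ pp, q p σ)| ≤ κ := by rw [abs_neg]; exact hb σ
  have h3 := Real.exp_bound (hx.trans hκ) (n := R) (by omega)
  refine le_trans h3 ?_
  have h4 : ((R.succ : ℕ) : ℝ) / ((R.factorial : ℝ) * R) ≤ 2 := by
    have hR1 : (1:ℝ) ≤ R := by exact_mod_cast hA
    have hf : (1:ℝ) ≤ (R.factorial : ℝ) := by exact_mod_cast Nat.one_le_iff_ne_zero.2 (Nat.factorial_ne_zero _)
    rw [div_le_iff₀ (by positivity)]
    push_cast
    nlinarith
  calc |-(∑ p ∈ pp, q p σ)| ^ R * (((R.succ : ℕ) : ℝ) / ((R.factorial : ℝ) * R)) ≤ κ ^ R * 2 := by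
        gcongr
    _ = 2 * κ ^ R := by ring

end Pool.Agent.H.MP_dd1c2e_lc.Fo
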